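import Pool.Agent.MP_ee8c61_ag.M3CP.Spec

/-!
The surface attached to a divisor.
-/

set_option autoImplicit false

namespace Pool.Agent.MP_ee8c61_ag.M3CP

open M3 hiding Dom
open M3S hiding Ov
open Pool.Agent.MP_96693b_ag.RS (Loc LocOf Model Chart IsCrd IsPt chA Gens chA_le div_mem_chA)
open WithZero

namespace RCmp

variable {M : Mod 3} {o : M.J}

theorem Cor.le {V : Vl 3} {W : ValuationSubring (kE M o)} (h : Cor M o V W) : V ≤ (M.v o).O :=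
  fun g hg => ((h g).1 hg).1

theorem xb_mem {f : Po 3} (hM : M.OK f) (b : M.ι) (l : Fin 3) : xb M o l ∈ Ab M o b :=
  Algebra.subset_adjoin ⟨_, hM.pol b _, rfl⟩

theorem ov_of (h0 : Ov (M.v o).O) {V : Vl 3} {W : ValuationSubring (kE M o)} (h : Cor M o V W)
    (hc : ∀ a : ℂ, algebraMap ℂ _ a ∈ W) (hx : ∀ l, xb M o l ∈ W) : Ov V := fun p => by
  induction p using MvPolynomial.induction_on with
  | C a =>
    rw [MvPolynomial.algHom_C]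
    exact (h _).2 ⟨((M.v o).pl.cst a).1, (congrArg (· ∈ W) ((M.v o).pl.cst a).2).mpr (hc a)⟩
  | add p q hp hq => rw [map_add]; exact add_mem hp hq
  | mul_X p l hp => rw [map_mul]; exact mul_mem hp ((h _).2 ⟨h0 _, hx l⟩)

/-- regularity of the coordinates descends along a domination -/
theorem down {K : Type} [Field K] [Algebra ℂ K] {X : Set K} {L L' : Loc K} {y : K} (h1 : 1 ∈ X)
    (hy : y ∈ L'.O) (h0 : y ≠ 0) (hL : chA X y ≤ L.O) (hl : L.O ≤ L'.O) : ∀ x ∈ X, x ∈ L.O := by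
  have a : 1 / y ∈ L.O := hL (div_mem_chA h1)
  have b : L.ev (1 / y) ≠ 0 := fun e => by
    have c := L'.ev_mul _ hy _ (hl a)
    rw [Loc.ev_eq_of_le hl a, e, mul_zero, mul_one_div_cancel h0, Loc.ev_one] at c
    exact one_ne_zero c
  have c := L.inv_mem _ a b
  rw [one_div, inv_inv] at c
  intro x hx
  have d := mul_mem (hL (div_mem_chA hx)) c
  rwa [div_mul_cancel₀ _ h0] at d

end RCmp

open RCmp in
theorem rowCMP : OfCMP := by
  intro hE hF hR hH hV hS hB hT hC hA f M hM o w hw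
  have bas := hE.bas 3 f M hM
  have val := hV f M hM o
  obtain ⟨b0, hb0⟩ := hM.cov _ (bas.ov_v o)
  have p0v : (M.v o).v (M.mon b0 (M.e o)) = 1 := by rw [bas.v_mon b0 o _ hb0, M.e_apply, if_pos rfl]
  generalize M.mon b0 (M.e o) = p0 at p0v
  obtain ⟨n, U, hn, hU, hG, e1, e2, e3⟩ := hB f M hM o w p0 hw p0v
  obtain ⟨W0, hW0⟩ := val.push _ le_rfl
  obtain ⟨L0, hL0, -, -⟩ := val.pt b0 _ W0 hW0 hb0 1 (one_mem _) M3.un_one
  have sm : ∀ b L, EPt M o b L → ∃ κ : Chart (kE M o) 2, IsPt U L ∧ IsCrd L κ := fun b L h => by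
    obtain ⟨u, hu, h0, h1, -⟩ := e1 b L h
    obtain ⟨i0, -, κ, hκ⟩ := hS f M hM o b L h
    exact ⟨κ, ⟨u, hu, h0, h1⟩, hκ.crd⟩
  obtain ⟨S, r1, r2⟩ := hR _ U hU hG ⟨L0, sm b0 L0 hL0⟩
  have F := hF _ S
  have mU : Mor S U := fun p => by
    obtain ⟨L, ⟨u, hu, h0, h1⟩, h2, -⟩ := r1 p
    exact ⟨u, hu, h0, h1.le.trans h2⟩
  have mX : Mor S (insert 1 (Set.range (xb M o))) := fun p => by
    obtain ⟨u, hu, h0, h1⟩ := mU p
    obtain ⟨y, hy, h2, h3⟩ := e3 u hu h0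
    exact ⟨y, hy, h2, h3.trans h1⟩
  obtain ⟨T, hT'⟩ := hH _ S F U hU mU
  obtain ⟨H, hH'⟩ := hH _ S F _ ((Set.finite_range _).insert 1) mX
  have ex : ∀ b L, EPt M o b L → ∃ p, S.loc p = L := fun b L h =>
    have ⟨κ, h1, h2⟩ := sm b L h
    r2 L κ h1 h2
  have pt : ∀ p, Aff M o S p ↔ ∃ b, EPt M o b (S.loc p) := fun p => by
    refine ⟨fun h => ?_, fun ⟨b, h⟩ l => h.2.le (xb_mem hM b l)⟩
    obtain ⟨L, h1, h2, h3⟩ := r1 p
    obtain ⟨u, hu, h0, h4⟩ := id h1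
    obtain ⟨y, hy, h5, h6⟩ := e3 u hu h0
    have h7 : y ∈ (S.loc p).O := by
      rcases hy with rfl | ⟨l, rfl⟩
      exacts [one_mem _, h l]
    obtain ⟨b, hb⟩ := e2 L h1 fun l => down (Set.mem_insert _ _) h7 h5 (h6.trans h4.le) h2 _
      (Set.mem_insert_of_mem _ ⟨l, rfl⟩)
    obtain ⟨κ, -, hκ⟩ := sm b L hb
    exact ⟨b, h3 ⟨κ, hκ⟩ ▸ hb⟩
  have H0' : 0 ≤ H := fun C => by
    simpa using (mem_H0 one_ne_zero).1 (hH'.mem 1 (Set.mem_insert _ _)) C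
  have Hc : ∀ C, H C = 0 ↔ ∀ l, C.1.val (xb M o l) ≤ 1 := fun C => by
    refine ⟨fun h l => ?_, fun h => le_antisymm ?_ (H0' C)⟩
    · simpa [h] using hH'.mem _ (Set.mem_insert_of_mem _ ⟨l, rfl⟩) C
    · obtain ⟨u, hu, h0, h1⟩ := hH'.ex C
      have h2 : C.1.val u ≤ 1 := by
        rcases hu with rfl | ⟨l, rfl⟩
        exacts [by simp, h l]
      have h3 : (0 : ℝ) ≤ C.1.ord u := by exact_mod_cast (C.1.val_le_one (C.1.val_ne h0)).1 h2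
      linarith
  have cor : ∀ C : Crv S, H C = 0 → ∃ V, Cor M o V C.1.val.valuationSubring ∧ M3.Ov V ∧
      ∀ b, M.In b V → ∀ q ∈ M.S.A b, Un V q →
        ∃ p, On C p ∧ EPt M o b (S.loc p) ∧ (S.loc p).ev (rs M o q) ≠ 0 := fun C h => by
    obtain ⟨V, hV⟩ := val.lift C.1.val.valuationSubring
    refine ⟨V, hV, ov_of (bas.ov_v o) hV C.1.const_le ((Hc C).1 h), fun b hb q hq h1 => ?_⟩
    obtain ⟨L, h2, h3, h4⟩ := val.pt b V _ hV hb q hq h1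
    obtain ⟨p, rfl⟩ := ex b L h2
    exact ⟨p, h3, h2, h4⟩
  have pts : Pts M o S H := ⟨pt, ex, hH'.Z, H0', hH'.bpf, Hc, fun p =>
    ⟨fun h C hC => (Hc C).2 fun l => hC _ (h l), fun h l =>
      F.hart p _ fun C hC => (Hc C).1 (h C hC) l⟩, cor⟩
  obtain ⟨tr, trc⟩ := hT f M hM o S H F.toB2 pts p0 p0v
  obtain ⟨gam, cus⟩ := hC f M hM o S H F.toB2 pts p0 tr trc
  obtain ⟨φ, adn⟩ := hA f M hM o S H F.toB2 pts p0 tr trc
  refine ⟨S, H, T, n, p0, tr, gam, φ, pts, trc, cus, adn, hn, hT'.Z, hT'.bpf, hT'.nef, ?_,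
    fun C h => ?_, fun C h => ?_⟩
  · obtain ⟨p, rfl⟩ := ex b0 L0 hL0
    obtain ⟨u, hu, h0, h1, -⟩ := e1 b0 _ hL0
    exact (hT'.amp u hu h0 p h1).1
  · obtain ⟨V, -, h1, h2⟩ := cor C h
    obtain ⟨b, hb⟩ := hM.cov V h1
    obtain ⟨p, h3, h4, -⟩ := h2 b hb 1 (one_mem _) M3.un_one
    obtain ⟨u, hu, h0, h5, h6⟩ := e1 b _ h4
    have a := (hT'.eq u hu h0 p h5.le).2 C h3
    have c := trc.eq (n • w) p b h4
    have d := C.1.ord_of_val_one ((F.unit p _).1 h6 C h3)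
    rw [C.1.ord_mul (C.1.val_ne h0) (C.1.val_ne c.1)] at d
    have e := c.2 C h3
    rw [map_nsmul, Finsupp.smul_apply] at e
    rw [← nsmul_eq_mul, ← e, ← a, C.1.ord_inv]
    exact_mod_cast (by omega)
  · obtain ⟨V, -, h1, h2⟩ := cor C h
    obtain ⟨b, hb⟩ := hM.cov V h1
    obtain ⟨p, h3, h4, -⟩ := h2 b hb 1 (one_mem _) M3.un_one
    obtain ⟨u, hu, h0, h5, -⟩ := e1 b _ h4
    exact (hT'.amp u hu h0 p h5).2 C h3

end Pool.Agent.MP_ee8c61_ag.M3CP
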