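import Pool.Agent.MP_ee8c61_ag.M3CP.Spec
import Pool.Agent.MP_ee8c61_ag.M3RESID.Res
import Pool.Agent.MP_ee8c61_ag.M3E.Asm

/-!
The curves cut out on a divisor by the other divisors.
-/

set_option autoImplicit false

namespace Pool.Agent.MP_ee8c61_ag.M3CP

open M3 hiding Dom
open M3E (EOut Bas)
open M3FG (Cu All3)
open M3S hiding Ov
open M3RESID (Pl)
open Pool.Agent.MP_96693b_ag.RS (Loc LocOf Model Chart IsCrd)
open Pool.Agent.MP_cce4c9_lc.H87 (Place)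

namespace RCu

variable {f : Po 3} {M : Mod 3} {o j : M.J} {V V' : Vl 3} {W W' : ValuationSubring (kE M o)}
  {g : KK 3} {b : M.ι}

theorem cor_le (h : Cor M o V W) : V ≤ (M.v o).O := fun g hg => ((h g).1 hg).1

theorem cor_eq (h : Cor M o V W) (h' : Cor M o V' W) : V = V' :=
  SetLike.ext fun g => (h g).trans (h' g).symm

theorem cor_le' (h : Cor M o V W) (h' : Cor M o V W') : W ≤ W' := fun y hy => by
  obtain ⟨g, hg, rfl⟩ := (M.v o).pl.surj y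
  exact ((h' g).1 ((h g).2 ⟨hg, hy⟩)).2

theorem rs_mul {h : KK 3} (hg : g ∈ (M.v o).F 0) (hh : h ∈ (M.v o).F 0) :
    rs M o (g * h) = rs M o g * rs M o h := (M.v o).pl.mul g hg h hh

theorem rs_inv (h0 : g ≠ 0) (hv : (M.v o).v g = 0) : rs M o g⁻¹ = (rs M o g)⁻¹ := by
  simpa using Pl.π_zpow (P := (M.v o).pl) h0 hv (-1)

theorem cor_un (h : Cor M o V W) (hg : g ∈ (M.v o).F 0) : Un V g ↔ Un W (rs M o g) := by
  refine ⟨fun u => ?_, fun u => ?_⟩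
  · obtain ⟨h0, hv⟩ := (M.v o).un_O.1 (u.mono (cor_le h))
    exact ⟨Pl.π_ne (P := (M.v o).pl) h0 hv, ((h _).1 u.2.1).2, rs_inv h0 hv ▸ ((h _).1 u.2.2).2⟩
  · have h1 : g ∉ (M.v o).F 1 := fun e => u.1 (Pl.π_F1 (M.v o).pl e)
    have h0 : g ≠ 0 := fun e => h1 (Or.inl e)
    have hv : (M.v o).v g = 0 :=
      le_antisymm (not_lt.1 fun e => h1 (Or.inr e)) (hg.resolve_left h0)
    exact ⟨h0, (h _).2 ⟨hg, u.2.1⟩,
      (h _).2 ⟨Or.inr (by rw [DV.inv, hv, neg_zero]), (rs_inv h0 hv).symm ▸ u.2.2⟩⟩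

theorem un_val {K : Type} [Field K] [Algebra ℂ K] (v : Place ℂ K) (y : K) :
    Un v.val.valuationSubring y ↔ v.val y = 1 :=
  un_iff.trans ((Valuation.isEquiv_valuation_valuationSubring v.val).eq_one_iff_eq_one).symm

theorem ept_mem {L : Loc (kE M o)} (h : EPt M o b L) (hg : g ∈ M.S.A b) : rs M o g ∈ L.O :=
  h.2.le (Algebra.subset_adjoin ⟨g, hg, rfl⟩)

theorem mon_e (B : Bas f M) (b : M.ι) (j : M.J) : M.mon b (M.e j) = M.η b j := by
  simpa using B.mon_e b j 1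

theorem eqn_e (B : Bas f M) (hj : j ≠ o) (p0 : KK 3) (b : M.ι) :
    eqn M o p0 b (M.e j) = rs M o (M.η b j) := by
  rw [eqn, M.e_apply, if_neg hj.symm, zpow_zero, div_one, mon_e B]

variable {S : Model (kE M o) 2} {p : S.P} {C : Crv S} {H : Dr S}

theorem in_of (h : Cor M o V C.1.val.valuationSubring) (hp : On C p) (he : EPt M o b (S.loc p)) :
    M.In b V := fun g hg => (h g).2 ⟨he.1 g hg, hp _ (ept_mem he hg)⟩

theorem lt_of (h : Cor M o V C.1.val.valuationSubring) (hg : g ∈ V) (hu : ¬Un V g) :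
    C.1.val (rs M o g) < 1 :=
  lt_of_le_of_ne ((h g).1 hg).2 fun e => hu ((cor_un h ((h g).1 hg).1).2 ((un_val _ _).2 e))

/-- The equation of a divisor through the point is a coordinate. -/
theorem crd {L : Loc (kE M o)} {i0 : Fin 3} {κ : Chart (kE M o) 2} (hj : j ≠ o)
    (h0 : M.S.lab b o = some i0) (hκ : Ind M o b i0 L κ) (hz : L.ev (rs M o (M.η b j)) = 0) :
    ∃ i, κ.x i = rs M o (M.η b j) := by
  rcases hl : M.S.lab b j with _ | l
  · rw [Mod.η, M.S.η_none b j hl, Units.val_one, rs, Pl.π_one, Loc.ev_one] at hz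
    exact absurd hz one_ne_zero
  · obtain ⟨i, rfl⟩ := Fin.exists_succAbove_eq (x := l) (y := i0) fun e =>
      hj (M.S.lab_inj b j o i0 (e ▸ hl) h0)
    refine ⟨i, ?_⟩
    rw [hκ.x, ← M.S.η_some b j _ hl, hz, map_zero, sub_zero]

theorem eqn_x (hS : B2 S) {κ : Chart (kE M o) 2} (hκ : IsCrd (S.loc p) κ) (hp : On C p) (i : Fin 2)
    (h : C.1.val (κ.x i) < 1) : Eqn (pr C) p (κ.x i) :=
  (hS.crd p _ (hκ.x_mem i) (hκ.x_mem_m i).2 fun e =>
    hκ.x_notMem_sup (J := ∅) (Finset.notMem_empty i) (Submodule.mem_sup_right e)).2 C hp h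

/-- The smoothness of the points. -/
def Sm (M : Mod 3) (o : M.J) : Prop := ∀ b L, EPt M o b L →
  ∃ i0, M.S.lab b o = some i0 ∧ ∃ κ, Ind M o b i0 L κ

theorem lemA (B : Bas f M) (hS : B2 S) (sm : Sm M o) (hj : j ≠ o) (he : EPt M o b (S.loc p))
    (hp : On C p) (h : C.1.val (rs M o (M.η b j)) < 1) : Eqn (pr C) p (rs M o (M.η b j)) ∧
      ∀ y ∈ (S.loc p).O, C.1.val y < 1 → y / rs M o (M.η b j) ∈ (S.loc p).O := by
  obtain ⟨i0, h0, κ, hκ⟩ := sm b _ he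
  obtain ⟨i, hi⟩ := crd hj h0 hκ (hS.evz C p hp _ (ept_mem he (B.η_mem b j)) h)
  have e := hi ▸ eqn_x hS hκ.crd hp i (hi ▸ h)
  refine ⟨e, fun y hy hlt => ?_⟩
  obtain ⟨η, -, h1, h2⟩ := hS.eqn1 C p hp
  have := mul_mem (h2 y hy hlt) (Loc.mem_of_ev (hS.rat _ p _ _ h1 e))
  rwa [div_mul_div_cancel₀ h1.1] at this

theorem ex_gam (hM : M.OK f) (B : Bas f M) (cv : M3E.Cv M) (vl : Val M o) (hS : B2 S)
    (sm : Sm M o) (P : Pts M o S H) (hV : M.IsCv o j V) :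
    ∃ C : Crv S, Cor M o V C.1.val.valuationSubring ∧ H C = 0 := by
  obtain ⟨b, hb⟩ := hM.cov V hV.2.1
  obtain ⟨W, hW⟩ := vl.push V hV.2.2.1
  obtain ⟨L, he, hL, -⟩ := vl.pt b V W hW hb 1 (one_mem _) un_one
  obtain ⟨p, rfl⟩ := P.ex b L he
  have m := B.η_mem b j
  have n : ¬Un W (rs M o (M.η b j)) := fun u =>
    hV.2.2.2.1 b hb ((cor_un hW (he.1 _ m)).2 u)
  obtain ⟨C, hp, hlt⟩ := hS.thru p _ (ept_mem he m) (by_contra fun e => n
    ⟨Loc.ne_zero_of_ev e, hL _ (ept_mem he m), hL _ ((S.loc p).inv_mem _ (ept_mem he m) e)⟩)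
  obtain ⟨V2, h2⟩ := vl.lift C.1.val.valuationSubring
  obtain ⟨e1, e2⟩ := lemA B hS sm hV.1 he hp hlt
  have fw : ∀ s ∈ M.S.A b, Un V s → C.1.val (rs M o s) = 1 := fun s hs u => by_contra fun e => by
    have := not_un_mul (hL _ (e2 _ (ept_mem he hs) (lt_of_le_of_ne (hp _ (ept_mem he hs)) e)))
      (hL _ (ept_mem he m)) n
    rw [div_mul_cancel₀ _ e1.1] at this
    exact this ((cor_un hW (he.1 s hs)).1 u)
  have e : V2 = V := cv.ext o j V V2 b hV hb (in_of h2 hp he) (cor_le h2) fun s hs =>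
    ⟨fun u => (cor_un h2 (he.1 s hs)).2 ((un_val _ _).2 (fw s hs u)), fun u => by_contra fun nu => by
      obtain ⟨s', hs', h, hh, h', hh', u', e⟩ := hV.2.2.2.2 b hb s hs nu
      have z : h * M.η b o ∈ (M.v o).F 1 := M3RESID.F_mul0 (he.1 h hh) (Or.inr (by
        rw [← mon_e B, B.v_mon b o _ he.1, M.e_apply, if_pos rfl]))
      have e' := congrArg (fun x => C.1.val (rs M o x)) e
      have e3 : rs M o (h * M.η b o + h' * M.η b j) = rs M o (h' * M.η b j) :=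
        Pl.π_congr (P := (M.v o).pl) (he.1 _ (mul_mem hh' m)) (by rwa [add_sub_cancel_right])
      beta_reduce at e'
      rw [rs_mul (he.1 _ hs') (he.1 _ hs), map_mul, fw s' hs' u',
        (un_val _ _).1 ((cor_un h2 (he.1 s hs)).1 u), one_mul, e3,
        rs_mul (he.1 _ hh') (he.1 _ m), map_mul] at e'
      exact ((mul_le_of_le_one_left' (hp _ (ept_mem he hh'))).trans_lt hlt).ne' e'⟩
  exact ⟨C, e ▸ h2, (P.Hp p).1 ((P.pt p).2 ⟨b, he⟩) C hp⟩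

theorem ex_pt (P : Pts M o S H) (h : Cor M o V C.1.val.valuationSubring) (h0 : H C = 0)
    (hb : M.In b V) : ∃ p, On C p ∧ EPt M o b (S.loc p) := by
  obtain ⟨V', h1, -, h2⟩ := P.cor C h0
  obtain ⟨p, a, c, -⟩ := h2 b (cor_eq h h1 ▸ hb) 1 (one_mem _) un_one
  exact ⟨p, a, c⟩

variable {p0 : KK 3} {tr : (M.J → ℤ) →+ Dr S}

theorem isCv (hM : M.OK f) (B : Bas f M) (vl : Val M o) (hS : B2 S) (sm : Sm M o)
    (P : Pts M o S H) (T : Trc M o H p0 tr) (hj : j ≠ o) (h : tr (M.e j) C ≠ 0) :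
    ∃ V, Cor M o V C.1.val.valuationSubring ∧ M.IsCv o j V := by
  have h0 : H C = 0 := by_contra fun e => h (T.inf _ C e)
  obtain ⟨V, h1, hV, -⟩ := P.cor C h0
  have th : M.Thru V j := fun b hb u => by
    obtain ⟨p, hp, he⟩ := ex_pt P h1 h0 hb
    have := (T.eq (M.e j) p b he).2 C hp
    rw [eqn_e B hj, C.1.ord_of_val_one ((un_val _ _).1
      ((cor_un h1 (he.1 _ (B.η_mem b j))).1 u)), Int.cast_zero] at this
    exact h this.symm
  refine ⟨V, h1, hj, hV, cor_le h1, th, fun b hb g hg nu => ?_⟩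
  obtain ⟨p, hp, he⟩ := ex_pt P h1 h0 hb
  have m := B.η_mem b j
  obtain ⟨e1, e2⟩ := lemA B hS sm hj he hp (lt_of h1 (hb _ m) (th b hb))
  obtain ⟨x, hx, y, hy, a1, a2⟩ := he.2.frac _ (e2 _ (ept_mem he hg) (lt_of h1 (hb g hg) nu))
  obtain ⟨h', hh', rfl⟩ := (vl.mem b he.1 x).1 hx
  obtain ⟨s, hs, rfl⟩ := (vl.mem b he.1 y).1 hy
  have z : s * g - h' * M.η b j ∈ (M.v o).F 1 :=
    Pl.π_eq (P := (M.v o).pl) (he.1 _ (mul_mem hh' m)) (he.1 _ (mul_mem hs hg)) (by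
      refine (rs_mul (he.1 _ hs) (he.1 _ hg)).trans
        (Eq.trans ?_ (rs_mul (he.1 _ hh') (he.1 _ m)).symm)
      rw [← a2, mul_right_comm, div_mul_cancel₀ _ e1.1, mul_comm])
  refine ⟨s, hs, _, (hM.dv b o (B.in_v b V o hb (B.thru_le V o hV (cor_le h1))).2.1).2.2 _
    (sub_mem (mul_mem hs hg) (mul_mem hh' m)) z, h', hh',
    (cor_un h1 (he.1 s hs)).2 ((un_val _ _).2 ((hS.unit p _).1 a1 C hp)), ?_⟩
  rw [inv_mul_cancel_right₀ (M.η_ne b o), sub_add_cancel]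

theorem oc (hM : M.OK f) (B : Bas f M) (P : Pts M o S H) (T : Trc M o H p0 tr) (hV : M3.Ov V)
    (h : Cor M o V C.1.val.valuationSubring) (h0 : H C = 0) (c : M.J → ℤ) (s : KK 3)
    (hs : s ∈ (M.v o).F (-c o)) : M.Oc V c s ↔
      (bar M o p0 c s ≠ 0 → 0 ≤ (C.1.ord (bar M o p0 c s) : ℝ) + tr c C) := by
  obtain ⟨b, hb⟩ := hM.cov V hV
  obtain ⟨p, hp, he⟩ := ex_pt P h h0 hb
  have q0 : p0 ≠ 0 := fun e => by
    have := T.p0v
    rw [e, DV.zero] at this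
    exact zero_ne_one this
  have v1 : (M.v o).v (p0 ^ c o) = c o := by rw [DV.zpow, T.p0v, mul_one]
  have v2 := B.v_mon b o c he.1
  have m1 : s * p0 ^ c o ∈ (M.v o).F 0 := by
    simpa [v1] using (M.v o).F_mul hs ((M.v o).mem_F_self (p0 ^ c o))
  have m2 : M.mon b c / p0 ^ c o ∈ (M.v o).F 0 :=
    Or.inr (by rw [(M.v o).div (M.mon_ne b c) (zpow_ne_zero _ q0), v1, v2, sub_self])
  have e : s * M.mon b c = s * p0 ^ c o * (M.mon b c / p0 ^ c o) := by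
    rw [mul_assoc, mul_div_cancel₀ _ (zpow_ne_zero _ q0)]
  obtain ⟨n0, n1⟩ := T.eq c p b he
  rw [B.oc_iff b V c s hb, h, e, rs_mul m1 m2, and_iff_right (M3RESID.F_mul0 m1 m2), ← n1 C hp]
  show C.1.val (bar M o p0 c s * eqn M o p0 b c) ≤ 1 ↔ _
  by_cases z : bar M o p0 c s = 0
  · rw [z, zero_mul, map_zero]
    exact iff_of_true zero_le fun x => absurd rfl x
  · rw [C.1.val_le_one (C.1.val_ne (mul_ne_zero z n0)), C.1.ord_mul (C.1.val_ne z) (C.1.val_ne n0),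
      imp_iff_right z]
    exact_mod_cast Iff.rfl

end RCu

open RCu

theorem rowCU : OfCU := by
  intro E hV hSm f M hM o S H hS P p0 tr T
  have B := E.bas 3 f M hM
  have cv := E.cv 3 f M hM
  have vl := hV f M hM o
  have sm : Sm M o := hSm f M hM o
  choose gam h1 h2 using fun G : Cu M o => ex_gam hM B cv vl hS sm P G.2
  refine ⟨gam, ((Set.finite_univ.prod (cv.fin o)).subset
      (fun q (hq : M.IsCv o q.1 q.2) => ⟨trivial, q.1, hq⟩)).to_subtype, fun G G' e => ?_, h1, h2,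
    fun G => ?_, fun j C hj hn => by_contra fun h => ?_,
    fun G => oc hM B P T G.2.2.1 (h1 G) (h2 G), fun p hp => ?_⟩
  · have a : G.1.2 = G'.1.2 := cor_eq (h1 G) (e ▸ h1 G')
    exact Subtype.ext (Prod.ext
      ((cv.thru o _ _ _ G'.2 (a ▸ G.2.2.2.2.1)).resolve_left G.2.1) a)
  · obtain ⟨b, hb⟩ := hM.cov _ G.2.2.1
    obtain ⟨p, hp, he⟩ := ex_pt P (h1 G) (h2 G) hb
    rw [← (T.eq _ p b he).2 _ hp, eqn_e B G.2.1, (lemA B hS sm G.2.1 he hp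
      (lt_of (h1 G) (hb _ (B.η_mem b _)) (G.2.2.2.2.1 b hb))).1.2 _ hp, Finsupp.single_eq_same]
  · obtain ⟨V, a, c⟩ := isCv hM B vl hS sm P T hj h
    exact hn ⟨(j, V), c⟩ rfl
      (Subtype.ext (Place.eq_of_le _ _ fun x hx => cor_le' (h1 ⟨(j, V), c⟩) a hx))
  · obtain ⟨b, he⟩ := (P.pt p).1 hp
    obtain ⟨i0, h0, κ, hκ⟩ := sm b _ he
    refine ⟨κ, hκ.crd, fun G hG => ?_⟩
    have hb := in_of (h1 G) hG he
    have lt := lt_of (h1 G) (hb _ (B.η_mem b _)) (G.2.2.2.2.1 b hb)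
    obtain ⟨i, hi⟩ := crd G.2.1 h0 hκ (hS.evz _ p hG _ (ept_mem he (B.η_mem b _)) lt)
    exact ⟨i, eqn_x hS hκ.crd hG i (hi ▸ lt)⟩

end Pool.Agent.MP_ee8c61_ag.M3CP
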