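import Pool.Agent.MP_ee8c61_ag.M3CP.Spec
import Pool.Agent.MP_ee8c61_ag.M3RESID.Res
import Pool.Agent.MP_96693b_ag.DR.RAff

/-!
A projective embedding of a divisor of a model.
-/

set_option autoImplicit false

namespace Pool.Agent.MP_ee8c61_ag.M3CP

open M3 hiding Dom
open M3E (EOut Bas Nb)
open M3RESID (Pl)
open Pool.Agent.MP_96693b_ag.RS (Loc LocOf IsPt chA Gens div_mem_chA chA_le)

noncomputable section

namespace Emb

section Gen

variable {K : Type} [Field K] [Algebra ℂ K]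

/-- The localisation of `A` at the powers of `τ`. -/
def away (A : Subalgebra ℂ K) (τ : K) (hτ : τ ∈ A) : Subalgebra ℂ K where
  carrier := {x | ∃ e : ℕ, τ ^ e * x ∈ A}
  mul_mem' := by
    rintro x y ⟨e, he⟩ ⟨e', he'⟩
    exact ⟨e + e', by rw [pow_add, mul_mul_mul_comm]; exact mul_mem he he'⟩
  add_mem' := by
    rintro x y ⟨e, he⟩ ⟨e', he'⟩
    refine ⟨e + e', ?_⟩
    rw [show τ ^ (e + e') * (x + y) = τ ^ e' * (τ ^ e * x) + τ ^ e * (τ ^ e' * y) by ring]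
    exact add_mem (mul_mem (pow_mem hτ _) he) (mul_mem (pow_mem hτ _) he')
  algebraMap_mem' c := ⟨0, by simp⟩

theorem locOf_away {A B : Subalgebra ℂ K} {τ : K} {L : Loc K} (hτ : τ ∈ A) (h0 : τ ≠ 0)
    (hAB : A ≤ B) (hB : τ⁻¹ ∈ B) (hm : ∀ C : Subalgebra ℂ K, A ≤ C → τ⁻¹ ∈ C → B ≤ C)
    (hL : LocOf B L) : LocOf A L := by
  have h1 : B ≤ away A τ hτ := hm _ (fun x hx => ⟨0, by simpa using hx⟩)
    ⟨1, by rw [pow_one, mul_inv_cancel₀ h0]; exact one_mem _⟩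
  have hτL : τ ∈ L.O := hL.le (hAB hτ)
  have h2 : L.ev τ ≠ 0 := fun e => by
    have := L.ev_mul τ hτL _ (hL.le hB)
    rw [mul_inv_cancel₀ h0, Loc.ev_one, e, zero_mul] at this
    exact one_ne_zero this
  refine ⟨hAB.trans hL.le, fun f hf => ?_⟩
  obtain ⟨p, hp, q, hq, h3, h4⟩ := hL.frac f hf
  obtain ⟨e, he⟩ := h1 hp
  obtain ⟨e', he'⟩ := h1 hq
  refine ⟨τ ^ e' * (τ ^ e * p), mul_mem (pow_mem hτ _) he, τ ^ e * (τ ^ e' * q),
    mul_mem (pow_mem hτ _) he', ?_, by rw [← h4]; ring⟩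
  rw [L.ev_mul _ (pow_mem hτL _) _ (mul_mem (pow_mem hτL _) (hL.le hq)),
    L.ev_mul _ (pow_mem hτL _) _ (hL.le hq), Loc.ev_pow hτL, Loc.ev_pow hτL]
  exact mul_ne_zero (pow_ne_zero _ h2) (mul_ne_zero (pow_ne_zero _ h2) h3)

end Gen

variable {M : Mod 3} {o : M.J}

theorem rs_mul {g h : KK 3} (hg : g ∈ (M.v o).F 0) (hh : h ∈ (M.v o).F 0) :
    rs M o (g * h) = rs M o g * rs M o h := (M.v o).pl.mul g hg h hh

theorem rs_one : rs M o 1 = 1 := (M.v o).pl.π_one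

theorem rs_ne {g : KK 3} (h : Un (M.v o).O g) : rs M o g ≠ 0 :=
  Pl.π_ne (P := (M.v o).pl) h.1 ((M.v o).un_O.1 h).2

theorem rs_div {g u : KK 3} (hg : g ∈ (M.v o).F 0) (h : Un (M.v o).O u) :
    rs M o (g / u) = rs M o g / rs M o u :=
  Pl.π_div (P := (M.v o).pl) hg h.1 ((M.v o).un_O.1 h).2

theorem rs_inv {u : KK 3} (h : Un (M.v o).O u) : rs M o u⁻¹ = (rs M o u)⁻¹ := by
  rw [← one_div, rs_div (one_mem (M.v o).O) h, rs_one, one_div]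

theorem rs_pow {u : KK 3} (h : Un (M.v o).O u) (e : ℕ) : rs M o (u ^ e) = rs M o u ^ e := by
  simpa using Pl.π_zpow (P := (M.v o).pl) h.1 ((M.v o).un_O.1 h).2 e

/-- The functions whose restriction lies in `B`. -/
def pull (B : Subalgebra ℂ (kE M o)) : Subalgebra ℂ (KK 3) where
  carrier := {g | g ∈ (M.v o).F 0 ∧ rs M o g ∈ B}
  mul_mem' := fun {g h} hg hh =>
    ⟨mul_mem (S := Vl 3) (s := (M.v o).O) hg.1 hh.1, by
      rw [rs_mul hg.1 hh.1]; exact mul_mem hg.2 hh.2⟩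
  add_mem' := fun {g h} hg hh =>
    ⟨add_mem hg.1 hh.1, by
      rw [show rs M o (g + h) = _ from (M.v o).pl.add g hg.1 h hh.1]; exact add_mem hg.2 hh.2⟩
  algebraMap_mem' c := ⟨(M.v o).cst_mem c, by
    rw [show rs M o _ = _ from (M.v o).pl.π_cst c]; exact B.algebraMap_mem c⟩

theorem rs_mem {b : M.ι} {g : KK 3} (hg : g ∈ M.S.A b) : rs M o g ∈ Ab M o b :=
  Algebra.subset_adjoin ⟨g, hg, rfl⟩

theorem cor_le {V : Vl 3} {W : ValuationSubring (kE M o)} (h : Cor M o V W) : V ≤ (M.v o).O :=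
  fun g hg => ((h g).1 hg).1

theorem cor_un {V : Vl 3} {W : ValuationSubring (kE M o)} (h : Cor M o V W) {g : KK 3}
    (hg : Un V g) : Un W (rs M o g) :=
  have h1 := hg.mono (cor_le h)
  ⟨rs_ne h1, ((h g).1 hg.2.1).2, by rw [← rs_inv h1]; exact ((h _).1 hg.2.2).2⟩

theorem cor_ov {V : Vl 3} {W : ValuationSubring (kE M o)} (h : Cor M o V W)
    (ho : M3.Ov (M.v o).O) {B : Subalgebra ℂ (kE M o)} (hx : ∀ l, xb M o l ∈ B)
    (hW : ∀ y ∈ B, y ∈ W) : M3.Ov V := by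
  intro p
  have : ip 3 p ∈ pull B := by
    induction p using MvPolynomial.induction_on with
    | C r =>
      rw [← MvPolynomial.algebraMap_eq, AlgHom.commutes]
      exact Subalgebra.algebraMap_mem _ r
    | add p q hp hq => rw [map_add]; exact add_mem hp hq
    | mul_X p l hp => rw [map_mul]; exact mul_mem hp ⟨ho _, hx l⟩
  exact (h _).2 ⟨this.1, hW _ this.2⟩

/-- The data of the embedding. -/
structure Dat (f : Po 3) (M : Mod 3) (o : M.J) (w : M.J → ℤ) (p0 : KK 3) {κ : Type}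
    (b : κ → M.ι) (t ρ : κ → KK 3) (n : ℕ) (U0 : Set (KK 3)) : Prop where
  ok : M.OK f
  bas : Bas f M
  nb : Nb M
  val : Val M o
  ac : M.AC w b t ρ
  p0v : (M.v o).v p0 = 1
  sec : ∀ s ∈ U0, s ∈ M.H (n • w)
  one : ∀ i, ρ i ^ n ∈ U0
  inv : ∀ i, ρ i ^ n * (t i)⁻¹ ∈ U0
  gen : ∀ i, ∃ G : Set (KK 3), Algebra.adjoin ℂ G = M.S.A (b i) ∧ ∀ g ∈ G, ρ i ^ n * g ∈ U0

/-- The affine coordinates. -/
abbrev YY (M : Mod 3) (o : M.J) : Set (kE M o) := insert 1 (Set.range (xb M o))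

/-- The homogeneous coordinates. -/
def UU (M : Mod 3) (o : M.J) (p0 : KK 3) (c : M.J → ℤ) (U0 : Set (KK 3)) : Set (kE M o) :=
  Set.image2 (· * ·) (YY M o) (bar M o p0 c '' U0)

theorem bar_mem {p0 : KK 3} {c : M.J → ℤ} {U0 : Set (KK 3)} {s : KK 3} (hs : s ∈ U0) :
    bar M o p0 c s ∈ UU M o p0 c U0 := ⟨1, Or.inl rfl, _, ⟨s, hs, rfl⟩, one_mul _⟩

namespace Dat

variable {f : Po 3} {w : M.J → ℤ} {p0 : KK 3} {κ : Type} {b : κ → M.ι} {t ρ : κ → KK 3} {n : ℕ}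
  {U0 : Set (KK 3)} (D : Dat f M o w p0 b t ρ n U0)

include D

theorem p0_ne : p0 ≠ 0 := fun e => by
  have := D.p0v
  rw [e, (M.v o).zero] at this
  exact zero_ne_one this

theorem ovO : M3.Ov (M.v o).O := D.bas.ov_v o

theorem yy_mem (a : M.ι) {y : kE M o} (hy : y ∈ YY M o) : y ∈ Ab M o a := by
  rcases hy with rfl | ⟨l, rfl⟩
  · exact one_mem _
  · exact rs_mem (D.ok.pol a _)

theorem sec_F {c : M.J → ℤ} {s : KK 3} (hs : s ∈ M.H c) : s * p0 ^ c o ∈ (M.v o).F 0 := by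
  have h1 := (M.v o).F_mul ((D.bas.oc_v o c s).1 (hs _ D.ovO)) ((M.v o).mem_F_self (p0 ^ c o))
  rwa [DV.zpow, D.p0v, mul_one, neg_add_cancel] at h1

theorem gen_un {c : M.J → ℤ} {s : KK 3} (hs : M.Gen (M.v o).O c s) :
    Un (M.v o).O (s * p0 ^ c o) := by
  obtain ⟨h0, h1⟩ := (D.bas.gen_v o c s).1 hs
  have h2 := zpow_ne_zero (c o) D.p0_ne
  exact (M.v o).un_O.2 ⟨mul_ne_zero h0 h2, by
    rw [(M.v o).mul _ _ h0 h2, DV.zpow, D.p0v, h1, mul_one, neg_add_cancel]⟩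

theorem bar_div {c : M.J → ℤ} {s r : KK 3} (hs : s ∈ M.H c) (hr : M.Gen (M.v o).O c r) :
    bar M o p0 c s / bar M o p0 c r = rs M o (s / r) := by
  rw [bar, bar, ← rs_div (D.sec_F hs) (D.gen_un hr),
    mul_div_mul_right _ _ (zpow_ne_zero (c o) D.p0_ne)]

variable {i : κ}

theorem up {V : Vl 3} (hV : M3.Ov V) (h : V ≤ (M.v o).O) (hi : M.Gen V w (ρ i)) :
    M.Gen (M.v o).O w (ρ i) :=
  have h1 := (D.ac.gen i V hV).1 hi
  (D.ac.gen i _ D.ovO).2 ⟨fun g hg => h (h1.1 g hg), h h1.2⟩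

theorem div_mem {V : Vl 3} (hV : M3.Ov V) (hi : M.Gen V w (ρ i)) {s : KK 3} (hs : s ∈ U0) :
    s / ρ i ^ n ∈ V :=
  (D.bas.oc_div V _ s _ hV (D.bas.gen_pow V w _ n hi)).1 (D.sec s hs V hV)

variable (hi : M.Gen (M.v o).O w (ρ i))

include hi

theorem inO : M.In (b i) (M.v o).O := ((D.ac.gen i _ D.ovO).1 hi).1

theorem un_t : Un (M.v o).O (t i) :=
  ⟨D.ac.ne i, D.inO hi _ (D.ac.mem i), ((D.ac.gen i _ D.ovO).1 hi).2⟩

theorem u_ne : bar M o p0 (n • w) (ρ i ^ n) ≠ 0 :=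
  rs_ne (D.gen_un (D.bas.gen_pow _ w _ n hi))

theorem quo {s : KK 3} (hs : s ∈ U0) :
    bar M o p0 (n • w) s / bar M o p0 (n • w) (ρ i ^ n) = rs M o (s / ρ i ^ n) :=
  D.bar_div (D.sec s hs) (D.bas.gen_pow _ w _ n hi)

theorem mem_chA {g : KK 3} (hg : ρ i ^ n * g ∈ U0) :
    rs M o g ∈ chA (UU M o p0 (n • w) U0) (bar M o p0 (n • w) (ρ i ^ n)) := by
  have h0 := ((D.bas.gen_v o _ _).1 (D.bas.gen_pow _ w _ n hi)).1
  have h1 := D.quo hi hg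
  rw [mul_div_cancel_left₀ _ h0] at h1
  rw [← h1]
  exact div_mem_chA (bar_mem hg)

theorem le_chA : Ab M o (b i) ≤ chA (UU M o p0 (n • w) U0) (bar M o p0 (n • w) (ρ i ^ n)) := by
  obtain ⟨G, h1, h2⟩ := D.gen i
  have h3 : M.S.A (b i) ≤
      pull (chA (UU M o p0 (n • w) U0) (bar M o p0 (n • w) (ρ i ^ n))) := by
    refine h1.symm.le.trans (Algebra.adjoin_le fun g hg => ?_)
    exact ⟨D.inO hi g (h1 ▸ Algebra.subset_adjoin hg), D.mem_chA hi (h2 g hg)⟩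
  refine Algebra.adjoin_le ?_
  rintro _ ⟨g, hg, rfl⟩
  exact (h3 hg).2

theorem inv_chA :
    (rs M o (t i))⁻¹ ∈ chA (UU M o p0 (n • w) U0) (bar M o p0 (n • w) (ρ i ^ n)) := by
  rw [← rs_inv (D.un_t hi)]
  exact D.mem_chA hi (D.inv i)

theorem chA_min (C : Subalgebra ℂ (kE M o)) (h1 : Ab M o (b i) ≤ C) (h2 : (rs M o (t i))⁻¹ ∈ C) :
    chA (UU M o p0 (n • w) U0) (bar M o p0 (n • w) (ρ i ^ n)) ≤ C := by
  refine chA_le.2 ?_
  rintro _ ⟨y, hy, _, ⟨s, hs, rfl⟩, rfl⟩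
  obtain ⟨e, he⟩ := D.nb.aw (b i) (t i) (D.ac.mem i) (D.ac.ne i) (s / ρ i ^ n) fun V hV ht =>
    D.div_mem (D.bas.ov _ V hV) ((D.ac.gen i V (D.bas.ov _ V hV)).2 ⟨hV, ht⟩) hs
  have h3 := rs_mem (o := o) he
  rw [rs_mul ((D.un_t hi).pow e).2.1 (D.div_mem D.ovO hi hs), rs_pow (D.un_t hi)] at h3
  have h4 := mul_mem (pow_mem h2 e) (h1 h3)
  rw [← mul_assoc, ← mul_pow, inv_mul_cancel₀ (rs_ne (D.un_t hi)), one_pow, one_mul] at h4
  beta_reduce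
  rw [mul_div_assoc, D.quo hi hs]
  exact mul_mem (h1 (D.yy_mem _ hy)) h4

omit hi

theorem gens : Gens (UU M o p0 (n • w) U0) := by
  obtain ⟨i, hi⟩ := D.ac.cov _ D.ovO
  refine top_le_iff.1 fun y _ => ?_
  obtain ⟨p, hp, q, hq, h0, e⟩ := D.val.frac (b i) (D.inO hi) y
  have h1 : Ab M o (b i) ≤ (IntermediateField.adjoin ℂ
      (Set.image2 (· / ·) (UU M o p0 (n • w) U0) (UU M o p0 (n • w) U0))).toSubalgebra :=
    (D.le_chA hi).trans (chA_le.2 fun x hx =>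
      IntermediateField.subset_adjoin _ _ ⟨x, hx, _, bar_mem (D.one i), rfl⟩)
  rw [eq_div_of_mul_eq h0 e]
  exact IntermediateField.div_mem _ (h1 hp) (h1 hq)

theorem e1 (a : M.ι) (L : Loc (kE M o)) (hL : EPt M o a L) :
    ∃ u ∈ UU M o p0 (n • w) U0, u ≠ 0 ∧ LocOf (chA (UU M o p0 (n • w) U0) u) L ∧
      L.ev (u * eqn M o p0 a (n • w)) ≠ 0 := by
  obtain ⟨V, W, hc, hW, hu⟩ := D.val.dom L
  have hV : M3.Ov V := cor_ov hc D.ovO (fun l => hL.2.le (D.yy_mem a (Or.inr ⟨l, rfl⟩))) hW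
  obtain ⟨i, hi⟩ := D.ac.cov V hV
  have hi' := D.up hV (cor_le hc) hi
  obtain ⟨h1, h2⟩ := (D.ac.gen i V hV).1 hi
  have h3 := (D.val.chg a (b i) L V W hL hc hW hu h1).2
  have h4 : rs M o (t i) ∈ L.O := h3.le (rs_mem (D.ac.mem i))
  have h5 := L.inv_mem _ h4 ((hu _ h4).1 (cor_un hc ⟨D.ac.ne i, h1 _ (D.ac.mem i), h2⟩))
  refine ⟨_, bar_mem (D.one i), D.u_ne hi', h3.of_le (D.le_chA hi') (D.chA_min hi' _ h3.le h5), ?_⟩
  have h6 : M.In a V := fun g hg => (hc g).2 ⟨hL.1 g hg, hW _ (hL.2.le (rs_mem hg))⟩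
  have h7 := zpow_ne_zero ((n • w) o) D.p0_ne
  have h8 : M.mon a (n • w) / p0 ^ (n • w) o ∈ (M.v o).F 0 := Or.inr (by
    rw [(M.v o).div (M.mon_ne _ _) h7, D.bas.v_mon a o _ hL.1, DV.zpow, D.p0v, mul_one, sub_self])
  rw [bar, eqn, ← rs_mul (D.sec_F (D.sec _ (D.one i))) h8, mul_assoc, mul_div_cancel₀ _ h7]
  exact (hu _ (hL.2.le (rs_mem ((D.nb.H _ _).1 (D.sec _ (D.one i)) a)))).1
    (cor_un hc (D.bas.gen_pow V w _ n hi a h6))

theorem e2 (L : Loc (kE M o)) (hL : IsPt (UU M o p0 (n • w) U0) L) (hx : ∀ l, xb M o l ∈ L.O) :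
    ∃ a, EPt M o a L := by
  obtain ⟨V, W, hc, hW, hu⟩ := D.val.dom L
  have hV : M3.Ov V := cor_ov hc D.ovO hx hW
  obtain ⟨i, hi⟩ := D.ac.cov V hV
  have hi' := D.up hV (cor_le hc) hi
  have h0 := D.u_ne hi'
  have h1 : chA (UU M o p0 (n • w) U0) (bar M o p0 (n • w) (ρ i ^ n)) ≤ L.O := by
    obtain ⟨u, hu1, hu0, h⟩ := hL
    have h2 := h.le (div_mem_chA (bar_mem (D.one i)))
    have h3 : (bar M o p0 (n • w) (ρ i ^ n) / u)⁻¹ ∈ W := by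
      obtain ⟨y, hy, _, ⟨s, hs, rfl⟩, rfl⟩ := hu1
      beta_reduce
      rw [inv_div, mul_div_assoc, D.quo hi' hs]
      refine mul_mem (hW y ?_) ((hc _).1 (D.div_mem hV hi hs)).2
      rcases hy with rfl | ⟨l, rfl⟩
      · exact one_mem _
      · exact hx l
    have h4 := L.inv_mem _ h2 ((hu _ h2).1 ⟨div_ne_zero h0 hu0, hW _ h2, h3⟩)
    refine chA_le.2 fun x hx => ?_
    have h5 := mul_mem (h.le (div_mem_chA hx)) h4
    rwa [inv_div, div_mul_div_cancel₀ hu0] at h5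
  exact ⟨b i, D.inO hi', locOf_away (rs_mem (D.ac.mem i)) (rs_ne (D.un_t hi')) (D.le_chA hi')
    (D.inv_chA hi') (D.chA_min hi') (hL.locOf (bar_mem (D.one i)) h0 h1)⟩

end Dat

theorem e3 {p0 : KK 3} {c : M.J → ℤ} {U0 : Set (KK 3)} (u : kE M o) (hu : u ∈ UU M o p0 c U0)
    (h0 : u ≠ 0) : ∃ y ∈ YY M o, y ≠ 0 ∧ chA (YY M o) y ≤ chA (UU M o p0 c U0) u := by
  obtain ⟨y, hy, β, hβ, rfl⟩ := hu
  refine ⟨y, hy, left_ne_zero_of_mul h0, chA_le.2 fun x hx => ?_⟩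
  rw [← mul_div_mul_right x y (right_ne_zero_of_mul h0)]
  exact div_mem_chA ⟨x, hx, β, hβ, rfl⟩

end Emb

open Emb in
theorem rowEMB : OfEMB := by
  intro E hV f M hM o w p0 hw hp
  obtain ⟨κ, _, b, t, ρ, ac⟩ := hw
  have bas := E.bas 3 f M hM
  have val := hV f M hM o
  choose G hG1 hG2 using fun i => Subalgebra.fg_def.1 (val.fg (b i))
  have hfin : ∀ i, (insert (t i)⁻¹ (insert 1 (G i))).Finite := fun i =>
    ((hG1 i).insert _).insert _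
  have hev : ∀ᶠ e : ℕ in Filter.atTop, ∀ i, ∀ g ∈ insert (t i)⁻¹ (insert 1 (G i)),
      ρ i ^ e * g ∈ M.H (e • w) := by
    refine Filter.eventually_all.2 fun i => (Filter.eventually_all_finite (hfin i)).2 fun g hg => ?_
    obtain ⟨e0, he⟩ := E.clr 3 f M hM κ w b t ρ ac i 0 g fun V h1 h2 => by
      obtain ⟨h3, h4⟩ := (ac.gen i V h1).1 h2
      rw [bas.oc_iff _ V _ _ h3, bas.mon_zero, mul_one]
      rcases hg with rfl | rfl | hg
      · exact h4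
      · exact one_mem _
      · exact h3 g (hG2 i ▸ Algebra.subset_adjoin hg)
    exact Filter.eventually_atTop.2 ⟨e0, fun e h => by simpa using he e h⟩
  obtain ⟨n, hn, hs⟩ := ((Filter.eventually_gt_atTop 0).and hev).exists
  have D : Dat f M o w p0 b t ρ n (⋃ i, (ρ i ^ n * ·) '' insert (t i)⁻¹ (insert 1 (G i))) :=
    { ok := hM
      bas := bas
      nb := E.nb 3 f M hM
      val := val
      ac := ac
      p0v := hp
      sec := by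
        simp only [Set.mem_iUnion]
        rintro _ ⟨i, g, hg, rfl⟩
        exact hs i g hg
      one := fun i => Set.mem_iUnion.2 ⟨i, 1, Or.inr (Or.inl rfl), mul_one _⟩
      inv := fun i => Set.mem_iUnion.2 ⟨i, _, Or.inl rfl, rfl⟩
      gen := fun i => ⟨G i, hG2 i, fun g hg =>
        Set.mem_iUnion.2 ⟨i, g, Or.inr (Or.inr hg), rfl⟩⟩ }
  exact ⟨n, _, hn, ((Set.finite_range _).insert _).image2 _
    ((Set.finite_iUnion fun i => (hfin i).image _).image _), D.gens, D.e1, D.e2, e3⟩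

end

end Pool.Agent.MP_ee8c61_ag.M3CP
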