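import Pool.Agent.MP_ee8c61_ag.M3CP.SpecJ
import Pool.Agent.MP_96693b_ag.DR.EJs
import Pool.Agent.MP_96693b_ag.DR.HJo
import Pool.Agent.MP_96693b_ag.DR.EPm
import Pool.Agent.MP_96693b_ag.DR.FCh

/-!
Resolution of a surface that is an isomorphism over the smooth points.
-/

set_option autoImplicit false

noncomputable section

namespace Pool.Agent.MP_ee8c61_ag.M3CP

open Pool.Agent.MP_96693b_ag Pool.Agent.MP_96693b_ag.DR MvPolynomial

namespace RRes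

section aux

variable {K K₀ L : Type} [Field K] [Algebra ℂ K] [Field K₀] [Algebra ℂ K₀] [Field L] [Algebra ℂ L]
  {σ σ' I : Type} {n : ℕ}

theorem aev_pv {A : Type} [CommRing A] [Algebra ℂ A] (P : σ' → MvPolynomial σ ℂ)
    (a : σ → A) (r : MvPolynomial σ' ℂ) : aeval a (aeval P r) = aeval (pv P a) r :=
  (DFunLike.congr_fun (comp_aeval (f := P) (aeval (R := ℂ) a)) r)

theorem pv_ne {a : σ → K} {b : σ → L} {P : σ' → MvPolynomial σ ℂ} (h : Sp a b)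
    (hP : Hom P) (h' : pv P b ≠ 0) : pv P a ≠ 0 := (h.pv hP h').ne

variable [Fintype σ] [Fintype σ'] [Fintype I] {f₀ : σ → K₀} {F : σ → K}
  {R : σ' → MvPolynomial σ ℂ} {Y : I → Md σ' n} {q : MvPolynomial σ ℂ} {k : ℕ}

theorem eres_comp (h : Rs f₀ (cone F) {z ∈ cone F | aeval z q ≠ 0} R Y)
    (hq : q.IsHomogeneous k) (hF : F ≠ 0) (h0 : aeval F q ≠ 0) (hξ : pv R F ≠ 0) :
    ∃ l, Sp (Y l).f (pv R F) := by
  by_contra hn
  have : ∀ l, ∃ (p : MvPolynomial σ' ℂ) (c : ℕ), p.IsHomogeneous c ∧ aeval (Y l).f p = 0 ∧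
      aeval (pv R F) p ≠ 0 := fun l => by
    by_contra hl
    exact hn ⟨l, hξ, fun p c a b => by_contra fun d => hl ⟨p, c, a, b, d⟩⟩
  choose p c h1 h2 h3 using this
  obtain ⟨d, hd⟩ := h.hom
  obtain ⟨z, hz, e⟩ := exists_cone_ne hF (hq.mul (IsHomogeneous.prod Finset.univ
    (fun l => aeval R (p l)) (fun l => d * c l) fun l _ => (h1 l).aeval R hd)) (by
      rw [map_mul, map_prod]
      exact mul_ne_zero h0 (Finset.prod_ne_zero_iff.2 fun l _ => by rw [aev_pv]; exact h3 l))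
  rw [map_mul, map_prod, mul_ne_zero_iff, Finset.prod_ne_zero_iff] at e
  obtain ⟨l, hl⟩ := Set.mem_iUnion.1 (h.inv z ⟨hz, e.1⟩)
  exact e.2 l (Finset.mem_univ l) ((aev_pv R z _).trans (hl.2 _ _ (h1 l) (h2 l)))

theorem par_of {P : σ → MvPolynomial σ' ℂ} (hR : Hom R) (hr : RegT (pv R f₀) f₀)
    (hF : Sp f₀ F) (hξ : pv R F ≠ 0) (hP : Hom P) (h1 : pv P (pv R F) ≠ 0)
    (h2 : Par f₀ (pv P (pv R f₀))) : Par F (pv P (pv R F)) :=
  (hr.regAt (hF.pv hR hξ)).uniq (rel_pv hF hR hξ).symm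
    ((rel_pv (hF.pv hR hξ) hP h1).par' (Par.refl _) h2.symm)

theorem regT_of (hR : Hom R) (hr : RegT (pv R f₀) f₀) (hF : Sp f₀ F) (hξ : pv R F ≠ 0) :
    RegT (pv R F) F := fun y hy => by
  have hy' := (hF.pv hR hξ).trans hy
  obtain ⟨P, hP, a, b⟩ := (regAt_iff hy').1 (hr y hy')
  exact (regAt_iff hy).2 ⟨P, hP, a, par_of hR hr hF hξ hP (pv_ne hy hP a) b⟩

omit [Fintype I] in
theorem sp_back {V : Set (σ → ℂ)} (h : Rs f₀ (cone F) V R Y) (hF : Sp f₀ F)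
    (hξ : pv R F ≠ 0) {l : I} (hl : Sp (Y l).f (pv R F)) : Sp (pv R F) (Y l).f := by
  have s1 := hF.pv h.hom hξ
  have s2 : Sp (pv R f₀) (Y l).f := sp_of_cone_subset hl.ne (h.sub l)
  obtain ⟨P, hP, a, b⟩ := (regAt_iff s1).1 (h.reg.regAt s1)
  have c := pv_ne hl hP a
  have r : ∀ {A : Type} [Field A] [Algebra ℂ A] {y : σ' → A}, Sp (pv R f₀) y → pv P y ≠ 0 →
      Rel (pv R f₀) f₀ y (pv P y) := fun d e => (rel_pv d hP e).par' (Par.refl _) b.symm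
  have s3 : Sp F (pv P (Y l).f) := ⟨c, fun p m hp e => by
    by_contra hn
    obtain ⟨j, hj⟩ := Function.ne_iff.1 c
    obtain ⟨d, hd⟩ := hP
    obtain ⟨y, hy, e'⟩ := exists_cone_ne hl.ne ((hp.aeval P hd).mul (hd j)) (by
      rw [map_mul, aev_pv]
      exact mul_ne_zero hn hj)
    rw [map_mul, aev_pv, mul_ne_zero_iff] at e'
    exact e'.1 ((h.maps l y hy _ (r (h.sub l hy) (Function.ne_iff.2 ⟨j, e'.2⟩))).2 p m hp e)⟩
  have s4 : Sp (pv P (Y l).f) F := (hl.pv hP a).par (par_of h.hom h.reg hF hξ hP a b).symm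
  have d := pv_ne s4 h.hom hξ
  have s5 := (r s2 c).right
  exact (s3.pv h.hom d).par (((regAt_iff s5).2 ⟨R, h.hom, d, Par.refl _⟩).uniq
    (rel_pv s5 h.hom d) (r s2 c).symm)

end aux

section

variable {K σ : Type} [Field K] [Algebra ℂ K]

/-- The embedding in the hyperplane at infinity. -/
def Pi0 (σ : Type) : Option σ → MvPolynomial σ ℂ := fun o => o.elim 0 X

theorem hom_Pi0 : Hom (Pi0 σ) :=
  ⟨1, fun o => by
    cases o
    exacts [isHomogeneous_zero _ _ _, isHomogeneous_X ℂ _]⟩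

theorem pv_Pi0 {A : Type} [CommRing A] [Algebra ℂ A] (a : σ → A) :
    pv (Pi0 σ) a = fun o => o.elim 0 a := funext fun o => by cases o <;> simp [pv, Pi0]

theorem cone_inf (f : σ → K) : cone (fun o : Option σ => o.elim 0 f) = atInf (cone f) := by
  ext w
  refine ⟨fun h => ?_, fun ⟨h1, h2⟩ => ?_⟩
  · have h1 : w none = 0 := by
      simpa using h.2 (X none) 1 (isHomogeneous_X ℂ none) (aeval_X _ none)
    have e : ∀ {A : Type} [CommRing A] [Algebra ℂ A] (a : Option σ → A),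
        pv (fun i => X (some i)) a = a ∘ some := fun a => funext fun i => by simp [pv]
    have h2 := Sp.pv h (P := fun i => X (some i)) ⟨1, fun i => isHomogeneous_X ℂ _⟩ (by
      rw [e]
      exact fun q => h.1 (funext fun o => by
        cases o
        exacts [h1, congrFun q _]))
    rw [e, e] at h2
    exact ⟨h1, h2⟩
  · have e : w = pv (Pi0 σ) (w ∘ some) := by
      rw [pv_Pi0]
      funext o
      cases o
      exacts [h1, rfl]
    rw [← pv_Pi0, e]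
    exact Sp.pv h2 hom_Pi0 (e ▸ fun q => h2.1 (by rw [q]; rfl))

/-- The resolution in terms of tuples. -/
theorem main (hJ : StJAC) [Fintype σ] {f : σ → K} (hf : Frac f) {n : ℕ} {z₀ : σ → ℂ}
    (h0 : z₀ ∈ cone f) (hs0 : Smo n f z₀) : ∃ (σ' : Type) (_ : Fintype σ') (M : DR.Model K σ' n)
      (R : σ' → MvPolynomial σ ℂ), Hom R ∧ M.f = pv R f ∧ RegT M.f f ∧
      ∀ z ∈ cone f, Smo n f z → pv R z ≠ 0 := by
  obtain ⟨⟨M, hM⟩, hc, -⟩ := sPm sCm σ
  rw [← hM] at hc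
  let F : Option σ → K := fun i => i.elim 0 f
  have hF : F ≠ 0 := fun e => hf.1 (funext fun i => congrFun e (some i))
  have hs : cone F ⊆ cone M.f := fun z hz => hc ▸ hz.1
  obtain ⟨σ', I, _, _, R, Y, h⟩ := exists_rs M (Z := cone F)
    (fun x hx => ⟨hx.1, fun p c hp e => hx.2 p c hp fun z hz => hz.2 p c hp e⟩) hs
    (fun e => by
      have a : (fun _ => 1 : Option σ → ℂ) ∈ cone F := by
        rw [e, hc]
        exact fun b => one_ne_zero (congrFun b none)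
      simpa using a.2 (X none) 1 (isHomogeneous_X ℂ none) (aeval_X F none)) n
  have hcF : cone F = atInf (cone f) := cone_inf f
  have hV : ∀ z ∈ cone f, JSm (cone f) n z → (fun o : Option σ => o.elim 0 z) ∈
      {w ∈ cone F | SmZ M.f (Fintype.card σ) (cone F) n w} := fun z hz hj => by
    rw [hcF]
    exact ⟨⟨rfl, hz⟩, hj.smZ M hc (cone_cone f)⟩
  have hne : ∀ z ∈ cone f, Smo n f z → pv R (fun o : Option σ => o.elim 0 z) ≠ 0 :=
    fun z hz hs => let ⟨_, hl⟩ := Set.mem_iUnion.1 (h.inv _ (hV z hz (hJ K σ f z n hz hs))); hl.1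
  obtain ⟨q, k, hq, q0, q1⟩ := sJOpn σ _ n z₀ (cone_cone f) (hJ K σ f z₀ n h0 hs0)
  have h' : Rs M.f (cone F) {w ∈ cone F | aeval w (rename some q) ≠ 0} R Y := h.mono <| by
    rintro w ⟨h1, h2⟩
    rw [aeval_rename] at h2
    have h3 : w ∈ atInf (cone f) := hcF ▸ h1
    have e : w = fun o : Option σ => o.elim 0 (w ∘ some) := funext fun o => by
      cases o
      exacts [h3.1, rfl]
    rw [e]
    exact hV _ h3.2 (q1 _ h3.2 h2)
  have s0 : Sp M.f F := sp_of_cone_subset hF hs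
  have hξ : pv R F ≠ 0 :=
    pv_ne (show _ ∈ cone F from hcF ▸ ⟨rfl, h0⟩) h.hom (hne z₀ h0 hs0)
  obtain ⟨l, hl⟩ := eres_comp h' hq.rename_isHomogeneous hF
    (by rw [aeval_rename]; exact fun e => q0 (h0.2 q k hq e)) hξ
  have hr : RegT (pv R F) f := fun y hy => by
    obtain ⟨j, hj, e⟩ := regT_of h.hom h.reg s0 hξ y hy
    cases j with
    | none => exact (hj rfl).elim
    | some j => exact ⟨j, hj, fun i => e (some i)⟩
  have fr : Frac (pv R F) := ⟨hξ, top_unique (hf.2 ▸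
    (hr.regAt (Sp.refl hξ)).locO_le (Sp.refl (seg_ne hξ hf.1)))⟩
  obtain ⟨e, he⟩ := (Y l).M.frac.exists_equiv fr hl (sp_back h s0 hξ hl)
  obtain ⟨r1, r2⟩ := h.hom.comp (hom_Pi0 (σ := σ))
  refine ⟨σ', inferInstance, ⟨pv R F, fr, fun y hy =>
    ((Y l).M.smooth y (hl.trans hy)).map e he⟩, _, r1, ?_, hr, fun z hz hs => ?_⟩
  · rw [r2, pv_Pi0]
  · rw [r2, pv_Pi0]
    exact hne z hz hs

end

end RRes

theorem rowRES : OfRES := by
  intro hJ K _ _ U hU hG ⟨L₀, κ₀, h1, h2⟩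
  obtain ⟨m, f, rfl⟩ : ∃ (m : ℕ) (f : Fin m → K), Set.range f = U :=
    let ⟨m, f, h⟩ := hU.fin_embedding; ⟨m, f, h⟩
  obtain ⟨z₀, h0⟩ := exists_at_of_isPt h1
  obtain ⟨σ', _, M, R, hR, hM, hr, hne⟩ := RRes.main hJ (frac_iff.2 ⟨h0.1.ne, hG⟩) h0.1
    (h0.smo_iff.2 ⟨κ₀, h2⟩)
  have reg : ∀ {z L}, At f z L → (∃ κ : RS.Chart K 2, RS.IsCrd L κ) → RegAt f M.f z :=
    fun {z L} h hs => (regAt_iff h.1).2 ⟨R, hR, hne z h.1 (h.smo_iff.2 hs), hM ▸ Par.refl _⟩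
  refine ⟨M.toRS, fun p => ?_, fun L κ hL hκ => ?_⟩
  · obtain ⟨y, hy⟩ := exists_cone (N := M.toRS) rfl p
    obtain ⟨z, hz⟩ := (hr y hy.1).exists_rel hy.1
    obtain ⟨L, hL⟩ := exists_at hz.right
    have k := (hy.rel_iff hL (hr y hy.1)).1 hz
    exact ⟨L, hL.isPt, k, fun hs =>
      RS.Loc.ext' (le_antisymm ((hL.rel_iff hy (reg hL hs)).1 hz.symm) k)⟩
  · obtain ⟨z, hz⟩ := exists_at_of_isPt hL
    obtain ⟨y, hy⟩ := (reg hz ⟨κ, hκ⟩).exists_rel hz.1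
    obtain ⟨p, hp⟩ := exists_pt (N := M.toRS) rfl hy.right
    exact ⟨p, RS.Loc.ext' (le_antisymm ((hz.rel_iff hp (reg hz ⟨κ, hκ⟩)).1 hy)
      ((hp.rel_iff hz (hr y hp.1)).1 hy.symm))⟩

end Pool.Agent.MP_ee8c61_ag.M3CP
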