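import Pool.Agent.MP_ee8c61_ag.M3CP.Spec
import Pool.Agent.MP_ee8c61_ag.M3RESID.Res
import Pool.Agent.MP_96693b_ag.DR.RAff

/-!
The points of a divisor of a model are smooth.
-/

set_option autoImplicit false

namespace Pool.Agent.MP_ee8c61_ag.M3CP

open M3 hiding Dom
open M3RESID (Pl)
open Pool.Agent.MP_96693b_ag.RS (Loc LocOf Chart IsCrd)

namespace RSmo

variable {K k : Type} [Field K] [Algebra ℂ K] [Field k] [Algebra ℂ k] {P : Pl K k}

theorem un_cor {V : ValuationSubring K} {W : ValuationSubring k}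
    (h : ∀ g, g ∈ V ↔ g ∈ P.o.F 0 ∧ P.π g ∈ W) {g : K} (hg : g ∈ V) : Un V g ↔ Un W (P.π g) := by
  obtain ⟨h1, h2⟩ := (h g).1 hg
  constructor
  · intro ⟨h0, _, h3⟩
    obtain ⟨h4, h5⟩ := (h _).1 h3
    have e := P.mul g h1 _ h4
    rw [mul_inv_cancel₀ h0, P.π_one] at e
    exact ⟨left_ne_zero_of_mul_eq_one e.symm, h2, eq_inv_of_mul_eq_one_right e.symm ▸ h5⟩
  · intro ⟨h0, _, h3⟩
    have h4 : g ∉ P.o.F 1 := fun e => h0 (P.π_F1 e)
    have h5 : g ≠ 0 := fun e => h4 (Or.inl e)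
    have h6 : ¬1 ≤ P.o.v g := fun e => h4 (Or.inr e)
    have h7 : g⁻¹ ∈ P.o.F 0 := Or.inr (by rw [P.o.inv]; omega)
    have e := P.mul g h1 _ h7
    rw [mul_inv_cancel₀ h5, P.π_one] at e
    exact ⟨h5, hg, (h _).2 ⟨h7, by rw [eq_inv_of_mul_eq_one_right e.symm]; exact h3⟩⟩

theorem aeval_mem {n : ℕ} {A : Subalgebra ℂ K} {z : Fin n → K} (hz : ∀ l, z l ∈ A) (p : Po n) :
    MvPolynomial.aeval z p ∈ A := by
  induction p using MvPolynomial.induction_on with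
  | C c => rw [MvPolynomial.aeval_C]; exact A.algebraMap_mem c
  | add p q hp hq => rw [map_add]; exact add_mem hp hq
  | mul_X p i hp => rw [map_mul, MvPolynomial.aeval_X]; exact mul_mem hp (hz i)

theorem pol {n : ℕ} {A : Subalgebra ℂ K} (hA : ∀ g ∈ A, g ∈ P.o.F 0) {L : Loc k}
    (hL : ∀ g ∈ A, P.π g ∈ L.O) {z : Fin n → K} (hz : ∀ l, z l ∈ A) {I : Submodule L.O k}
    (hI : ∀ l, P.π (z l) - algebraMap ℂ k (L.ev (P.π (z l))) ∈ I) (p : Po n) :
    P.π (MvPolynomial.aeval z p) - algebraMap ℂ k (L.ev (P.π (MvPolynomial.aeval z p))) ∈ I := by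
  induction p using MvPolynomial.induction_on with
  | C c =>
    rw [MvPolynomial.aeval_C, P.π_cst, L.ev_alg, sub_self]
    exact zero_mem _
  | add p q hp hq =>
    have h1 := aeval_mem hz p
    have h2 := aeval_mem hz q
    rw [map_add, P.add _ (hA _ h1) _ (hA _ h2), L.ev_add _ (hL _ h1) _ (hL _ h2), map_add,
      add_sub_add_comm]
    exact add_mem hp hq
  | mul_X p i hp =>
    have h1 := aeval_mem hz p
    rw [map_mul, MvPolynomial.aeval_X, P.mul _ (hA _ h1) _ (hA _ (hz i)),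
      L.ev_mul _ (hL _ h1) _ (hL _ (hz i)), map_mul]
    have := add_mem (Loc.mul_mem_left (hL _ h1) (hI i))
      (Loc.mul_mem_right (L.O.algebraMap_mem (L.ev (P.π (z i)))) hp)
    rwa [mul_sub, sub_mul, sub_add_sub_cancel] at this

theorem mem (hU : M3E.SUnr) {n : ℕ} {A : Subalgebra ℂ K} (hA : ∀ g ∈ A, g ∈ P.o.F 0) {L : Loc k}
    (hL : ∀ g ∈ A, P.π g ∈ L.O) {z : Fin n → K} (hz : ∀ l, z l ∈ A)
    (het : (MvPolynomial.aeval (R := ℂ) fun l => (⟨z l, hz l⟩ : A)).toRingHom.Etale)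
    {I : Submodule L.O k} (hI : ∀ l, P.π (z l) - algebraMap ℂ k (L.ev (P.π (z l))) ∈ I)
    {V : ValuationSubring K} {W : ValuationSubring k}
    (h : ∀ g, g ∈ V ↔ g ∈ P.o.F 0 ∧ P.π g ∈ W) (h1 : ∀ y ∈ L.O, y ∈ W)
    (h2 : ∀ y ∈ L.O, (Un W y ↔ L.ev y ≠ 0)) {g : K} (hg : g ∈ A) (h0 : L.ev (P.π g) = 0) :
    P.π g ∈ I := by
  have hV : ∀ g ∈ A, g ∈ V := fun g hg => (h g).2 ⟨hA g hg, h1 _ (hL g hg)⟩
  have hu : ∀ g ∈ A, (Un V g ↔ L.ev (P.π g) ≠ 0) := fun g hg =>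
    (un_cor h (hV g hg)).trans (h2 _ (hL g hg))
  obtain ⟨s, a1, a2, r, c, p, a3, a4, a5⟩ := hU K n A _ V het hV g hg fun e => (hu g hg).1 e h0
  refine Loc.mem_of_unit_mul (hL s a1) ((hu s a1).1 a2) ?_
  rw [← P.mul s (hA s a1) g (hA g hg), a5,
    Pl.π_sum _ fun i _ => hA _ (mul_mem (a3 i) (aeval_mem hz (p i)))]
  refine sum_mem fun i _ => ?_
  have b1 := aeval_mem hz (p i)
  rw [P.mul _ (hA _ (a3 i)) _ (hA _ b1)]
  refine Loc.mul_mem_left (hL _ (a3 i)) ?_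
  have b2 := pol hA hL hz hI (p i)
  rwa [not_not.1 fun e => a4 i ((hu _ b1).2 e), map_zero, sub_zero] at b2

end RSmo

theorem rowSMO : OfSMO := by
  intro hU hE hVal f M hM o b L ⟨hb, hL⟩
  have B := (hE.bas 3 f M hM).toBas1
  have hD := hE.der 3 f M hM
  have hV := hVal f M hM o
  obtain ⟨-, -, ⟨i0, hi⟩, -⟩ := B.in_v b _ o hb ((B.thru_v o o).2 rfl)
  refine ⟨i0, hi, ?_⟩
  have hex : ∀ i : Fin 2, ∃ w, (M.v o).pl.Rs (M.S.D b (i0.succAbove i)) w := fun i =>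
    Pl.exists_Rs fun m g hg => by
      have := hD.ord b o i0 hb hi (i0.succAbove i) m g hg
      rw [if_neg (i0.succAbove_ne i), sub_zero] at this
      rw [add_zero]
      exact this
  choose D hR using hex
  have hA : ∀ g ∈ M.S.A b, g ∈ (M.v o).pl.o.F 0 := hb
  have hO : ∀ g ∈ M.S.A b, (M.v o).pl.π g ∈ L.O := fun g hg =>
    hL.le (Algebra.subset_adjoin ⟨g, hg, rfl⟩)
  refine ⟨⟨fun i => rs M o (M.S.z b (i0.succAbove i)) -
    algebraMap ℂ _ (L.ev (rs M o (M.S.z b (i0.succAbove i)))), D⟩, ⟨?_, fun i => ?_, fun i j => ?_⟩,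
    fun _ => rfl, fun i g hg => ((hR i).2 g hg).symm⟩
  · refine le_antisymm (Loc.span_le.2 ?_) fun y hy => ?_
    · rintro _ ⟨i, rfl⟩
      exact Loc.sub_ev_mem (hO _ (M.S.z_mem b _))
    · obtain ⟨p, hp, q, hq, h1, h2⟩ := hL.frac y hy.1
      obtain ⟨g, hg, rfl⟩ := (hV.mem b hb p).1 hp
      obtain ⟨V, W, c1, c2, c3⟩ := hV.dom L
      refine Loc.mem_of_unit_mul (hL.le hq) h1 ?_
      rw [mul_comm, h2]
      refine RSmo.mem hU hA hO (M.S.z_mem b) (hM.et b) (fun l => ?_) c1 c2 c3 hg ?_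
      · rcases Fin.eq_self_or_eq_succAbove i0 l with rfl | ⟨i, rfl⟩
        · have e1 := B.v_mon b o ((1 : ℤ) • M.e o) hb
          rw [B.mon_e, zpow_one, one_smul, M.e_apply, if_pos rfl, Mod.η,
            M.S.η_some b o l hi] at e1
          rw [(M.v o).pl.π_F1 (Or.inr e1.ge), Loc.ev_zero, map_zero, sub_zero]
          exact zero_mem _
        · exact Loc.subset_span ⟨i, rfl⟩
      · have e2 := L.ev_mul y hy.1 q (hL.le hq)
        rwa [h2, hy.2, zero_mul] at e2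
  · refine Loc.mem_log_empty.1 (hL.mem_log fun y hy => ?_)
    obtain ⟨g, hg, rfl⟩ := (hV.mem b hb y).1 hy
    exact (hR i).2 g (hA g hg) ▸ hO _ (M.S.D_mem b _ g hg)
  · have e1 := (hR i).2 _ (hA _ (M.S.z_mem b (i0.succAbove j)))
    rw [M.S.D_z] at e1
    show D i (_ - _) = _
    rw [map_sub, Derivation.map_algebraMap, sub_zero]
    refine e1.symm.trans ?_
    by_cases e : i = j
    · rw [if_pos e, if_pos (by rw [e])]
      exact (M.v o).pl.π_one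
    · rw [if_neg e, if_neg fun e' => e (Fin.succAbove_right_injective e')]
      exact (M.v o).pl.π_zero

end Pool.Agent.MP_ee8c61_ag.M3CP
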