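import Pool.Agent.MP_ee8c61_ag.M3CP.RVal
import Pool.Agent.MP_ee8c61_ag.M3CP.RSmo
import Pool.Agent.MP_ee8c61_ag.M3CP.REmb
import Pool.Agent.MP_ee8c61_ag.M3CP.RTr2
import Pool.Agent.MP_ee8c61_ag.M3CP.RCu
import Pool.Agent.MP_ee8c61_ag.M3CP.RAdn
import Pool.Agent.MP_ee8c61_ag.M3CP.RHyp
import Pool.Agent.MP_ee8c61_ag.M3CP.RJac
import Pool.Agent.MP_ee8c61_ag.M3CP.RRes
import Pool.Agent.MP_ee8c61_ag.M3CP.RCmp
import Pool.Agent.MP_ee8c61_ag.M3E.RUnr

/-! The surface attached to a divisor exists. -/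

namespace Pool.Agent.MP_ee8c61_ag.M3CP

theorem sres : StRES := rowRES rowJAC

variable (hE : M3E.EOut)
include hE

theorem sval : SVal := rowVAL hE

theorem ssmo : SSmo := rowSMO M3E.rowUnr hE (sval hE)

theorem semb : SEmb := rowEMB hE (sval hE)

theorem str : STr := rowTR2 hE (sval hE)

theorem scu : SCu := rowCU hE (sval hE) (ssmo hE)

theorem sadn : SAdn := rowADJ hE (sval hE) (ssmo hE)

theorem cmp_of (hF : M3S.All M3S.Fnd) : SCmp :=
  rowCMP hE hF sres rowHYP (sval hE) (ssmo hE) (semb hE) (str hE) (scu hE) (sadn hE)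

end Pool.Agent.MP_ee8c61_ag.M3CP
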