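import Pool.Agent.MP_ee8c61_ag.M3.Defs
import Pool.Agent.MP_ee8c61_ag.M3S.SpecF
import Pool.Agent.MP_ee8c61_ag.M3FG.SpecB

/-!
A smooth projective surface whose finite part is a divisor of a model: the statements.
-/

set_option autoImplicit false

namespace Pool.Agent.MP_ee8c61_ag.M3CP

open M3 hiding Dom
open M3E (EOut)
open M3FG (Cu All3)
open M3S hiding Ov
open Pool.Agent.MP_96693b_ag.RS (Loc LocOf Model Chart IsCrd IsPt chA Gens)

noncomputable section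

section Defs

variable (M : Mod 3) (o : M.J)

/-- The function field of the divisor `o`. -/
abbrev kE : Type := (M.v o).kf

/-- The restriction of functions to the divisor. -/
abbrev rs : KK 3 → kE M o := (M.v o).pl.π

/-- The restricted coordinate functions. -/
def xb (l : Fin 3) : kE M o := rs M o (xx 3 l)

/-- The restriction of a chart. -/
def Ab (b : M.ι) : Subalgebra ℂ (kE M o) := Algebra.adjoin ℂ (rs M o '' M.S.A b)

/-- `L` is a closed point of the divisor in the chart `b`. -/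
def EPt (b : M.ι) (L : Loc (kE M o)) : Prop := M.In b (M.v o).O ∧ LocOf (Ab M o b) L

/-- `W` is the restriction of the valuation ring `V`. -/
def Cor (V : Vl 3) (W : ValuationSubring (kE M o)) : Prop :=
  ∀ g, g ∈ V ↔ g ∈ (M.v o).F 0 ∧ rs M o g ∈ W

/-- The restriction of a section of `c`, moved by the uniformizer `p0`. -/
def bar (p0 : KK 3) (c : M.J → ℤ) (s : KK 3) : kE M o := rs M o (s * p0 ^ c o)

/-- The local equation of the restriction of `c` in the chart `b`. -/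
def eqn (p0 : KK 3) (b : M.ι) (c : M.J → ℤ) : kE M o := rs M o (M.mon b c / p0 ^ c o)

/-- The chart `κ` is induced by the chart `b`, in which `o` is the coordinate `i0`. -/
structure Ind (b : M.ι) (i0 : Fin 3) (L : Loc (kE M o)) (κ : Chart (kE M o) 2) : Prop where
  crd : IsCrd L κ
  x : ∀ i, κ.x i = rs M o (M.S.z b (i0.succAbove i)) -
    algebraMap ℂ _ (L.ev (rs M o (M.S.z b (i0.succAbove i))))
  D : ∀ i, ∀ g ∈ (M.v o).F 0, κ.D i (rs M o g) = rs M o (M.S.D b (i0.succAbove i) g)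

end Defs

/-- Sections off the support of `H`. -/
def Ha {K : Type} [Field K] [Algebra ℂ K] {S : Model K 2} (H D : Dr S) (f : K) : Prop :=
  f ≠ 0 → ∀ C, H C = 0 → 0 ≤ (C.1.ord f : ℝ) + D C

/-- The morphism to projective space given by `U` is defined everywhere. -/
def Mor {K : Type} [Field K] [Algebra ℂ K] (S : Model K 2) (U : Set K) : Prop :=
  ∀ p, ∃ u ∈ U, u ≠ 0 ∧ chA U u ≤ (S.loc p).O

section Out

variable (M : Mod 3) (o : M.J) (S : Model (kE M o) 2)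

/-- The point is at finite distance. -/
def Aff (p : S.P) : Prop := ∀ l, xb M o l ∈ (S.loc p).O

/-- The finite points of `S` are the points of the divisor; `H` is the divisor at infinity. -/
structure Pts (H : Dr S) : Prop where
  pt : ∀ p, Aff M o S p ↔ ∃ b, EPt M o b (S.loc p)
  ex : ∀ b L, EPt M o b L → ∃ p, S.loc p = L
  HZ : IsInt H
  H0 : 0 ≤ H
  Hb : Bpf H
  Hc : ∀ C, H C = 0 ↔ ∀ l, C.1.val (xb M o l) ≤ 1
  Hp : ∀ p, Aff M o S p ↔ ∀ C, On C p → H C = 0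
  cor : ∀ C : Crv S, H C = 0 → ∃ V, Cor M o V C.1.val.valuationSubring ∧ M3.Ov V ∧
    ∀ b, M.In b V → ∀ q ∈ M.S.A b, Un V q →
      ∃ p, On C p ∧ EPt M o b (S.loc p) ∧ (S.loc p).ev (rs M o q) ≠ 0

variable {S}

/-- The restriction of divisors. -/
structure Trc (H : Dr S) (p0 : KK 3) (tr : (M.J → ℤ) →+ Dr S) : Prop where
  p0v : (M.v o).v p0 = 1
  Z : ∀ c, IsInt (tr c)
  eq : ∀ c p b, EPt M o b (S.loc p) → Eqn (tr c) p (eqn M o p0 b c)
  inf : ∀ c C, H C ≠ 0 → tr c C = 0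
  sec : ∀ c, ∀ s ∈ (M.v o).F (-c o), s ∈ M.R o c ↔ Ha H (tr c) (bar M o p0 c s)

/-- The curves cut out by the other divisors. -/
structure Cus (H : Dr S) (p0 : KK 3) (tr : (M.J → ℤ) →+ Dr S) (gam : Cu M o → Crv S) : Prop where
  fin : Finite (Cu M o)
  inj : Function.Injective gam
  cor : ∀ G, Cor M o G.1.2 (gam G).1.val.valuationSubring
  aff : ∀ G, H (gam G) = 0
  one : ∀ G, tr (M.e G.1.1) (gam G) = 1
  zero : ∀ j C, j ≠ o → (∀ G, G.1.1 = j → gam G ≠ C) → tr (M.e j) C = 0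
  oc : ∀ (G : Cu M o) c, ∀ s ∈ (M.v o).F (-c o), M.Oc G.1.2 c s ↔
    (bar M o p0 c s ≠ 0 → 0 ≤ ((gam G).1.ord (bar M o p0 c s) : ℝ) + tr c (gam G))
  snc : ∀ p, Aff M o S p → ∃ κ : Chart (kE M o) 2, IsCrd (S.loc p) κ ∧
    ∀ G, On (gam G) p → ∃ i, Eqn (pr (gam G)) p (κ.x i)

/-- Adjunction. -/
def Adn (H : Dr S) (tr : (M.J → ℤ) →+ Dr S) (φ : kE M o) : Prop :=
  φ ≠ 0 ∧ ∀ C, H C = 0 → tr (M.kk + M.e o) C = KD S C + C.1.ord φ

/-- `T` is a nef and big extension of a multiple of the restriction of `w`. -/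
structure Amb (H : Dr S) (tr : (M.J → ℤ) →+ Dr S) (w : M.J → ℤ) (n : ℕ) (T : Dr S) : Prop where
  pos : 0 < n
  Z : IsInt T
  bpf : Bpf T
  nef : Nef T
  big : 0 < II S T T
  eq : ∀ C, H C = 0 → T C = n * tr w C
  amp : ∀ C, H C = 0 → 0 < II S T (pr C)

/-- The surface attached to the divisor `o`. -/
structure Cmp (w : M.J → ℤ) (H T : Dr S) (n : ℕ) (p0 : KK 3) (tr : (M.J → ℤ) →+ Dr S)
    (gam : Cu M o → Crv S) (φ : kE M o) : Prop where
  pts : Pts M o S H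
  trc : Trc M o H p0 tr
  cus : Cus M o H p0 tr gam
  adn : Adn M o H tr φ
  amb : Amb M o H tr w n T

end Out

/-- The output. -/
def SCmp : Prop := All3 fun _ M => ∀ o w, M.Amp w →
  ∃ (S : Model (kE M o) 2) (H T : Dr S) (n : ℕ) (p0 : KK 3) (tr : (M.J → ℤ) →+ Dr S)
    (gam : Cu M o → Crv S) (φ : kE M o), Cmp M o w H T n p0 tr gam φ

/-! ### Rows without a model -/

/-- Resolution of a surface that is an isomorphism over the smooth points. -/
def StRES : Prop := ∀ (K : Type) [Field K] [Algebra ℂ K] (U : Set K), U.Finite → Gens U →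
  (∃ (L : Loc K) (κ : Chart K 2), IsPt U L ∧ IsCrd L κ) → ∃ S : Model K 2,
    (∀ p, ∃ L, IsPt U L ∧ L.O ≤ (S.loc p).O ∧ ((∃ κ : Chart K 2, IsCrd L κ) → S.loc p = L)) ∧
    ∀ (L : Loc K) (κ : Chart K 2), IsPt U L → IsCrd L κ → ∃ p, S.loc p = L

/-- The pull-back of the hyperplane class. -/
structure Hyp {K : Type} [Field K] [Algebra ℂ K] (S : Model K 2) (U : Set K) (T : Dr S) :
    Prop where
  Z : IsInt T
  eq : ∀ u ∈ U, u ≠ 0 → ∀ p, chA U u ≤ (S.loc p).O → Eqn T p u⁻¹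
  mem : ∀ u ∈ U, u ∈ H0 T
  ex : ∀ C, ∃ u ∈ U, u ≠ 0 ∧ (C.1.ord u : ℝ) + T C = 0
  bpf : Bpf T
  nef : Nef T
  amp : ∀ u ∈ U, u ≠ 0 → ∀ p, LocOf (chA U u) (S.loc p) →
    0 < II S T T ∧ ∀ C, On C p → 0 < II S T (pr C)

def OfHYP : Prop := All fun {K _ _} S => Fnd S → ∀ U : Set K, U.Finite → Mor S U → ∃ T, Hyp S U T

/-! ### Rows on a model -/

/-- Valuation rings and points of the divisor. -/
structure Val (M : Mod 3) (o : M.J) : Prop where
  lift : ∀ W, ∃ V, Cor M o V W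
  push : ∀ V, V ≤ (M.v o).O → ∃ W, Cor M o V W
  mem : ∀ b, M.In b (M.v o).O → ∀ y, y ∈ Ab M o b ↔ ∃ g ∈ M.S.A b, rs M o g = y
  fg : ∀ b, (M.S.A b).FG
  fgb : ∀ b, M.In b (M.v o).O → (Ab M o b).FG
  frac : ∀ b, M.In b (M.v o).O → ∀ y, ∃ p ∈ Ab M o b, ∃ q ∈ Ab M o b, q ≠ 0 ∧ y * q = p
  pt : ∀ b V W, Cor M o V W → M.In b V → ∀ q ∈ M.S.A b, Un V q →
    ∃ L, EPt M o b L ∧ (∀ y ∈ L.O, y ∈ W) ∧ L.ev (rs M o q) ≠ 0
  dom : ∀ L : Loc (kE M o), ∃ V W, Cor M o V W ∧ (∀ y ∈ L.O, y ∈ W) ∧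
    ∀ y ∈ L.O, (Un W y ↔ L.ev y ≠ 0)
  chg : ∀ a b L V W, EPt M o a L → Cor M o V W → (∀ y ∈ L.O, y ∈ W) →
    (∀ y ∈ L.O, (Un W y ↔ L.ev y ≠ 0)) → M.In b V → EPt M o b L

def SVal : Prop := All3 fun _ M => ∀ o, Val M o
def OfVAL : Prop := EOut → SVal

/-- The points of the divisor are smooth. -/
def SSmo : Prop := All3 fun _ M => ∀ o b L, EPt M o b L →
  ∃ i0, M.S.lab b o = some i0 ∧ ∃ κ, Ind M o b i0 L κ

def OfSMO : Prop := M3E.SUnr → EOut → SVal → SSmo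

/-- A projective embedding of the divisor. -/
def SEmb : Prop := All3 fun _ M => ∀ o w p0, M.Amp w → (M.v o).v p0 = 1 →
  ∃ (n : ℕ) (U : Set (kE M o)), 0 < n ∧ U.Finite ∧ Gens U ∧
    (∀ b L, EPt M o b L → ∃ u ∈ U, u ≠ 0 ∧ LocOf (chA U u) L ∧
      L.ev (u * eqn M o p0 b (n • w)) ≠ 0) ∧
    (∀ L, IsPt U L → (∀ l, xb M o l ∈ L.O) → ∃ b, EPt M o b L) ∧
    ∀ u ∈ U, u ≠ 0 → ∃ y ∈ insert 1 (Set.range (xb M o)), y ≠ 0 ∧
      chA (insert 1 (Set.range (xb M o))) y ≤ chA U u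

def OfEMB : Prop := EOut → SVal → SEmb

/-- A statement about surfaces with the right points. -/
def AllP (P : ∀ (M : Mod 3) (o : M.J) (S : Model (kE M o) 2), Dr S → Prop) : Prop :=
  All3 fun _ M => ∀ o (S : Model (kE M o) 2) (H : Dr S), B2 S → Pts M o S H → P M o S H

def STr : Prop := AllP fun M o _ H => ∀ p0, (M.v o).v p0 = 1 → ∃ tr, Trc M o H p0 tr
def OfTR : Prop := EOut → SVal → STr

def SCu : Prop := AllP fun M o _ H => ∀ p0 tr, Trc M o H p0 tr → ∃ gam, Cus M o H p0 tr gam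
def OfCU : Prop := EOut → SVal → SSmo → SCu

def SAdn : Prop := AllP fun M o _ H => ∀ p0 tr, Trc M o H p0 tr → ∃ φ, Adn M o H tr φ
def OfADJ : Prop := EOut → SVal → SSmo → SAdn

def OfCMP : Prop := EOut → All Fnd → StRES → OfHYP → SVal → SSmo → SEmb → STr → SCu → SAdn → SCmp

end

end Pool.Agent.MP_ee8c61_ag.M3CP
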