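import Pool.Agent.MP_ee8c61_ag.M3CP.Spec
import Pool.Agent.MP_ee8c61_ag.M3RESID.Res

/-!
The restriction of divisors to a divisor of a model.
-/

set_option autoImplicit false

namespace Pool.Agent.MP_ee8c61_ag.M3CP

open M3 hiding Dom
open M3E (EOut Bas)
open M3S hiding Ov
open M3RESID
open Pool.Agent.MP_96693b_ag.RS (Loc LocOf Model)

namespace TR

variable {f : Po 3} {M : Mod 3} {o : M.J} {p0 g s : KK 3} {a b : M.ι} {V : Vl 3}
  {W : ValuationSubring (kE M o)} {S : Model (kE M o) 2}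

theorem rs_mul {h : KK 3} (hg : g ∈ (M.v o).F 0) (hh : h ∈ (M.v o).F 0) :
    rs M o (g * h) = rs M o g * rs M o h := (M.v o).pl.mul g hg h hh

theorem p0_ne (hp : (M.v o).v p0 = 1) : p0 ≠ 0 := fun e => by
  rw [e, (M.v o).zero] at hp
  exact zero_ne_one hp

theorem u0 (B : Bas f M) (hp : (M.v o).v p0 = 1) (hb : M.In b (M.v o).O) (c : M.J → ℤ) :
    M.mon b c / p0 ^ c o ≠ 0 ∧ (M.v o).v (M.mon b c / p0 ^ c o) = 0 := by
  have h1 := zpow_ne_zero (c o) (p0_ne hp)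
  refine ⟨div_ne_zero (M.mon_ne b c) h1, ?_⟩
  rw [(M.v o).div (M.mon_ne b c) h1, B.v_mon b o c hb, (M.v o).zpow, hp, mul_one, sub_self]

theorem eqn_ne (B : Bas f M) (hp : (M.v o).v p0 = 1) (hb : M.In b (M.v o).O) (c : M.J → ℤ) :
    eqn M o p0 b c ≠ 0 := Pl.π_ne (P := (M.v o).pl) (u0 B hp hb c).1 (u0 B hp hb c).2

theorem eqn_add (B : Bas f M) (hp : (M.v o).v p0 = 1) (hb : M.In b (M.v o).O)
    (c c' : M.J → ℤ) : eqn M o p0 b (c + c') = eqn M o p0 b c * eqn M o p0 b c' := by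
  rw [eqn, eqn, eqn, ← rs_mul (Or.inr (u0 B hp hb c).2.ge) (Or.inr (u0 B hp hb c').2.ge),
    B.mon_add, Pi.add_apply, zpow_add₀ (p0_ne hp), mul_div_mul_comm]

theorem cor_le (h : Cor M o V W) : V ≤ (M.v o).O := fun g hg => ((h g).1 hg).1

theorem cor_in (h : Cor M o V W) (hb : M.In b V) : M.In b (M.v o).O :=
  fun g hg => cor_le h (hb g hg)

theorem cor_un (h : Cor M o V W) (hg : Un V g) : Un W (rs M o g) := by
  obtain ⟨h0, h1⟩ := (M.v o).un_O.1 (hg.mono (cor_le h))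
  refine ⟨Pl.π_ne (P := (M.v o).pl) h0 h1, ((h g).1 hg.2.1).2, ?_⟩
  have e := Pl.π_zpow (P := (M.v o).pl) h0 h1 (-1)
  rw [zpow_neg_one, zpow_neg_one] at e
  exact e ▸ ((h _).1 hg.2.2).2

theorem ord_eq (B : Bas f M) (hp : (M.v o).v p0 = 1) {C : Crv S}
    (h : Cor M o V C.1.val.valuationSubring) (ha : M.In a V) (hb : M.In b V) (c : M.J → ℤ) :
    C.1.ord (eqn M o p0 a c) = C.1.ord (eqn M o p0 b c) := by
  have u := B.un_mon a b V c ha hb
  obtain ⟨u1, u2, u3⟩ := cor_un h u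
  have e : eqn M o p0 a c = rs M o (M.mon a c / M.mon b c) * eqn M o p0 b c := by
    rw [eqn, eqn, ← rs_mul (cor_le h u.2.1) (Or.inr (u0 B hp (cor_in h hb) c).2.ge),
      div_mul_div_cancel₀ (M.mon_ne b c)]
  have k1 := (C.1.val_le_one (C.1.val_ne u1)).1 u2
  have k2 := (C.1.val_le_one (C.1.val_ne (inv_ne_zero u1))).1 u3
  have k3 := C.1.ord_mul (C.1.val_ne u1) (C.1.val_ne (inv_ne_zero u1))
  rw [mul_inv_cancel₀ u1, C.1.ord_one] at k3
  rw [e, C.1.ord_mul (C.1.val_ne u1) (C.1.val_ne (eqn_ne B hp (cor_in h hb) c))]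
  omega

theorem in_of {C : Crv S} {p : S.P} (hE : EPt M o b (S.loc p)) (hC : On C p)
    (h : Cor M o V C.1.val.valuationSubring) : M.In b V := fun g hg =>
  (h g).2 ⟨hE.1 g hg, hC _ (hE.2.le (Algebra.subset_adjoin ⟨g, hg, rfl⟩))⟩

theorem s0 (hp : (M.v o).v p0 = 1) {c : M.J → ℤ} (hs : s ∈ (M.v o).F (-c o)) :
    s * p0 ^ c o ∈ (M.v o).F 0 := by
  have h := (M.v o).F_mul hs ((M.v o).mem_F_self (p0 ^ c o))
  rwa [(M.v o).zpow, hp, mul_one, neg_add_cancel] at h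

theorem bar_mul (B : Bas f M) (hp : (M.v o).v p0 = 1) (hb : M.In b (M.v o).O) {c : M.J → ℤ}
    (hs : s ∈ (M.v o).F (-c o)) : s * M.mon b c ∈ (M.v o).F 0 ∧
      rs M o (s * M.mon b c) = bar M o p0 c s * eqn M o p0 b c := by
  have h1 : M.mon b c / p0 ^ c o ∈ (M.v o).F 0 := Or.inr (u0 B hp hb c).2.ge
  have e : s * M.mon b c = s * p0 ^ c o * (M.mon b c / p0 ^ c o) := by
    rw [mul_assoc, mul_div_cancel₀ _ (zpow_ne_zero (c o) (p0_ne hp))]
  rw [e]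
  exact ⟨(M.v o).O.mul_mem _ _ (s0 hp hs) h1, rs_mul (s0 hp hs) h1⟩

end TR

open TR

theorem rowTR : OfTR := by
  intro hE hV f M hM o S H h2 hP p0 hp
  have B := hE.bas 3 f M hM
  have A := hV f M hM o
  have ex : ∀ C : Crv S, ∃ t : (M.J → ℤ) → ℤ, (H C ≠ 0 → t = 0) ∧ (H C = 0 →
      ∃ V b, Cor M o V C.1.val.valuationSubring ∧ M3.Ov V ∧ M.In b V ∧
        ∀ c, t c = C.1.ord (eqn M o p0 b c)) := fun C => by
    by_cases h : H C = 0
    · obtain ⟨V, h1, h3, -⟩ := hP.cor C h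
      obtain ⟨b, hb⟩ := hM.cov V h3
      exact ⟨fun c => C.1.ord (eqn M o p0 b c), fun k => absurd h k,
        fun _ => ⟨V, b, h1, h3, hb, fun _ => rfl⟩⟩
    · exact ⟨0, fun _ => rfl, fun k => absurd k h⟩
  choose t t0 t1 using ex
  have fin : ∀ c, (Function.support fun C : Crv S => (t C c : ℝ)).Finite := fun c => by
    refine (Set.finite_iUnion fun b => h2.fin (eqn M o p0 b c)).subset fun C hC => ?_
    have hC' : t C c ≠ 0 := fun e => hC (by simp [e])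
    by_cases h : H C = 0
    · obtain ⟨V, b, -, -, -, e⟩ := t1 C h
      exact Set.mem_iUnion.2 ⟨b, fun k => hC' ((e c).trans k)⟩
    · exact absurd (congrFun (t0 C h) c) hC'
  have add : ∀ C c c', t C (c + c') = t C c + t C c' := fun C c c' => by
    by_cases h : H C = 0
    · obtain ⟨V, b, h1, -, hb, e⟩ := t1 C h
      have k := cor_in h1 hb
      rw [e, e, e, eqn_add B hp k,
        C.1.ord_mul (C.1.val_ne (eqn_ne B hp k c)) (C.1.val_ne (eqn_ne B hp k c'))]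
    · simp [t0 C h]
  let tr : (M.J → ℤ) →+ Dr S :=
    AddMonoidHom.mk' (fun c => Finsupp.ofSupportFinite (fun C => (t C c : ℝ)) (fin c))
      fun c c' => Finsupp.ext fun C => by
        show (t C (c + c') : ℝ) = t C c + t C c'
        rw [add, Int.cast_add]
  have ta : ∀ c C, tr c C = t C c := fun _ _ => rfl
  have eq : ∀ c p b, EPt M o b (S.loc p) → Eqn (tr c) p (eqn M o p0 b c) := fun c p b hb => by
    refine ⟨eqn_ne B hp hb.1 c, fun C hC => ?_⟩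
    obtain ⟨V, a, h1, -, ha, e⟩ := t1 C ((hP.Hp p).1 ((hP.pt p).2 ⟨b, hb⟩) C hC)
    rw [ta, e, ord_eq B hp h1 ha (in_of hb hC h1)]
  refine ⟨tr, hp, fun c C => ⟨_, ta c C⟩, eq, fun c C h => by simp [ta, t0 C h],
    fun c s hs => ⟨fun h h0 C hC => ?_, fun h => ?_⟩⟩
  · obtain ⟨V, b, h1, h3, hb, e⟩ := t1 C hC
    have k := cor_in h1 hb
    have k1 := ((h1 _).1 (h V h3 (cor_le h1) b hb)).2
    rw [(bar_mul B hp k hs).2] at k1
    have k2 := (C.1.val_le_one (C.1.val_ne (mul_ne_zero h0 (eqn_ne B hp k c)))).1 k1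
    rw [C.1.ord_mul (C.1.val_ne h0) (C.1.val_ne (eqn_ne B hp k c))] at k2
    rw [ta, e]
    exact_mod_cast k2
  · by_cases h0 : bar M o p0 c s = 0
    · refine B.F_R o c s ?_
      have k := (M.v o).F_mul (((M.v o).pl.ker _ (s0 hp hs)).1 h0)
        ((M.v o).mem_F_self (p0 ^ c o)⁻¹)
      rwa [mul_inv_cancel_right₀ (zpow_ne_zero (c o) (p0_ne hp)), (M.v o).inv, (M.v o).zpow, hp,
        mul_one, ← sub_eq_add_neg] at k
    intro V _ hV b hb
    obtain ⟨W, hW⟩ := A.push V hV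
    obtain ⟨L, hL, k1, -⟩ := A.pt b V W hW hb 1 (one_mem _) un_one
    obtain ⟨p, rfl⟩ := hP.ex b L hL
    obtain ⟨m1, m2⟩ := bar_mul B hp hL.1 hs
    refine (hW _).2 ⟨m1, k1 _ (h2.hart p _ fun C hC => ?_)⟩
    have k2 := h h0 C ((hP.Hp p).1 ((hP.pt p).2 ⟨b, hL⟩) C hC)
    rw [← (eq c p b hL).2 C hC] at k2
    rw [m2, C.1.val_le_one (C.1.val_ne (mul_ne_zero h0 (eqn_ne B hp hL.1 c))),
      C.1.ord_mul (C.1.val_ne h0) (C.1.val_ne (eqn_ne B hp hL.1 c))]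
    exact_mod_cast k2

end Pool.Agent.MP_ee8c61_ag.M3CP
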