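import Pool.Agent.MP_ee8c61_ag.M3CP.Spec
import Pool.Agent.MP_ee8c61_ag.M3RESID.Res

/-!
Valuation rings and points of a divisor of a model.
-/

set_option autoImplicit false

namespace Pool.Agent.MP_ee8c61_ag.M3CP

open M3 hiding Dom
open M3RESID (Pl)
open Pool.Agent.MP_96693b_ag.RS (Loc LocOf exists_locOf_of_notMem)

namespace RVal

variable {L k : Type} [Field L] [Algebra ℂ L] [Field k] [Algebra ℂ k] {P : Pl L k}
  {V : ValuationSubring L} {W : ValuationSubring k} {A : Subalgebra ℂ L}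

theorem π_inv {g : L} (h0 : g ≠ 0) (hv : P.o.v g = 0) : P.π g⁻¹ = (P.π g)⁻¹ := by
  have h := Pl.π_zpow h0 hv (-1)
  rwa [zpow_neg_one, zpow_neg_one] at h

theorem lift (P : Pl L k) (W : ValuationSubring k) :
    ∃ V : ValuationSubring L, ∀ g, g ∈ V ↔ g ∈ P.o.F 0 ∧ P.π g ∈ W := by
  refine ⟨{ carrier := {g | g ∈ P.o.F 0 ∧ P.π g ∈ W}
            mul_mem' := fun {a b} ha hb => ⟨P.o.O.mul_mem a b ha.1 hb.1, by
              rw [P.mul a ha.1 b hb.1]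
              exact mul_mem ha.2 hb.2⟩
            one_mem' := ⟨P.o.O.one_mem, by
              rw [P.π_one]
              exact one_mem W⟩
            add_mem' := fun {a b} ha hb => ⟨add_mem ha.1 hb.1, by
              rw [P.add a ha.1 b hb.1]
              exact add_mem ha.2 hb.2⟩
            zero_mem' := ⟨zero_mem _, by
              rw [P.π_zero]
              exact zero_mem W⟩
            neg_mem' := fun {a} ha => ⟨neg_mem ha.1, by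
              rw [Pl.π_neg ha.1]
              exact neg_mem ha.2⟩
            mem_or_inv_mem' := fun g => ?_ }, fun g => Iff.rfl⟩
  have h1 : ∀ x ∈ P.o.F 1, x ∈ P.o.F 0 ∧ P.π x ∈ W := fun x hx =>
    ⟨P.o.F_anti zero_le_one hx, by
      rw [P.π_F1 hx]
      exact zero_mem W⟩
  by_cases h0 : g = 0
  · exact Or.inl (h1 g (Or.inl h0))
  rcases lt_trichotomy (P.o.v g) 0 with h | h | h
  · exact Or.inr (h1 _ (Or.inr (by rw [P.o.inv]; omega)))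
  · refine (W.mem_or_inv_mem (P.π g)).imp (fun h2 => ⟨Or.inr h.ge, h2⟩) fun h2 =>
      ⟨Or.inr (by rw [P.o.inv]; omega), ?_⟩
    rw [π_inv h0 h]
    exact h2
  · exact Or.inl (h1 g (Or.inr h))

theorem push (hV : ∀ g ∈ V, g ∈ P.o.F 0) (hs : ∀ g ∈ P.o.F 1, g ∈ V) :
    ∃ W : ValuationSubring k, ∀ g, g ∈ V ↔ g ∈ P.o.F 0 ∧ P.π g ∈ W := by
  refine ⟨{ carrier := {y | ∃ g ∈ V, P.π g = y}
            mul_mem' := ?_
            one_mem' := ⟨1, one_mem V, P.π_one⟩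
            add_mem' := ?_
            zero_mem' := ⟨0, zero_mem V, P.π_zero⟩
            neg_mem' := ?_
            mem_or_inv_mem' := fun y => ?_ }, fun g => ⟨fun hg => ⟨hV g hg, g, hg, rfl⟩, ?_⟩⟩
  · rintro _ _ ⟨a, ha, rfl⟩ ⟨b, hb, rfl⟩
    exact ⟨a * b, mul_mem ha hb, P.mul a (hV a ha) b (hV b hb)⟩
  · rintro _ _ ⟨a, ha, rfl⟩ ⟨b, hb, rfl⟩
    exact ⟨a + b, add_mem ha hb, P.add a (hV a ha) b (hV b hb)⟩
  · rintro _ ⟨a, ha, rfl⟩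
    exact ⟨-a, neg_mem ha, Pl.π_neg (hV a ha)⟩
  · obtain ⟨g, hg, rfl⟩ := P.surj y
    by_cases h1 : g ∈ P.o.F 1
    · exact Or.inl ⟨g, hs g h1, rfl⟩
    have h0 : g ≠ 0 := fun e => h1 (Or.inl e)
    have h2 : 0 ≤ P.o.v g := hg.resolve_left h0
    have h3 : ¬ 1 ≤ P.o.v g := fun e => h1 (Or.inr e)
    exact (V.mem_or_inv_mem g).imp (fun h => ⟨g, h, rfl⟩) fun h => ⟨g⁻¹, h, π_inv h0 (by omega)⟩
  · rintro ⟨hg, a, ha, e⟩
    have h := add_mem (hs _ (Pl.π_eq (hV a ha) hg e.symm)) ha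
    rwa [sub_add_cancel] at h

theorem un (h : ∀ g, g ∈ V ↔ g ∈ P.o.F 0 ∧ P.π g ∈ W) {s : L} (hs : Un V s) : Un W (P.π s) := by
  have h1 := (h s).1 hs.2.1
  have h2 := (h s⁻¹).1 hs.2.2
  have h3 := (P.o.un_O.1 ⟨hs.1, h1.1, h2.1⟩).2
  exact ⟨Pl.π_ne hs.1 h3, h1.2, π_inv hs.1 h3 ▸ h2.2⟩

/-- The restriction as a homomorphism. -/
def hom (hA : ∀ g ∈ A, g ∈ P.o.F 0) : A →ₐ[ℂ] k where
  toFun g := P.π g
  map_one' := P.π_one
  map_mul' a b := P.mul a (hA a a.2) b (hA b b.2)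
  map_zero' := P.π_zero
  map_add' a b := P.add a (hA a a.2) b (hA b b.2)
  commutes' c := P.π_cst c

theorem adj (hA : ∀ g ∈ A, g ∈ P.o.F 0) : Algebra.adjoin ℂ (P.π '' A) = (hom hA).range := by
  refine le_antisymm (Algebra.adjoin_le ?_) ?_
  · rintro _ ⟨g, hg, rfl⟩
    exact ⟨⟨g, hg⟩, rfl⟩
  · rintro _ ⟨g, rfl⟩
    exact Algebra.subset_adjoin ⟨g, g.2, rfl⟩

theorem mem (hA : ∀ g ∈ A, g ∈ P.o.F 0) (y : k) :
    y ∈ Algebra.adjoin ℂ (P.π '' A) ↔ ∃ g ∈ A, P.π g = y := by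
  rw [adj hA]
  exact ⟨fun ⟨g, e⟩ => ⟨g, g.2, e⟩, fun ⟨g, hg, e⟩ => ⟨⟨g, hg⟩, e⟩⟩

theorem fg {N : ℕ} (φ : Po N →ₐ[ℂ] A) (h : φ.toRingHom.Etale) : A.FG := by
  have h1 : φ.toRingHom.FiniteType :=
    RingHom.FiniteType.of_finitePresentation (RingHom.Etale.iff_flat_and_formallyUnramified.1 h).2.2
  have h2 : (algebraMap ℂ (Po N)).FiniteType := RingHom.finiteType_algebraMap.2 inferInstance
  have h3 := h1.comp h2
  have e : φ.toRingHom.comp (algebraMap ℂ (Po N)) = algebraMap ℂ A := φ.comp_algebraMap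
  rw [e] at h3
  exact (Subalgebra.fg_top A).1 (RingHom.finiteType_algebraMap.1 h3).out

theorem pt {B : Subalgebra ℂ k} (hB : B.FG) (hW : ∀ y ∈ B, y ∈ W) {r : k} (hr : r ∈ B)
    (hu : Un W r) : ∃ Λ : Loc k, LocOf B Λ ∧ (∀ y ∈ Λ.O, y ∈ W) ∧ Λ.ev r ≠ 0 := by
  let I : Ideal B :=
    { carrier := {y | ¬ Un W (y : k)}
      add_mem' := fun {a b} ha hb => not_un_add (hW a a.2) (hW b b.2) ha hb
      zero_mem' := not_un_zero
      smul_mem' := fun c a ha => not_un_mul (hW c c.2) (hW a a.2) ha }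
  obtain ⟨Λ, h1, h2, h3⟩ := exists_locOf_of_notMem hB (I := I) (r := ⟨r, hr⟩)
    fun ⟨n, hn⟩ => hn (hu.pow n)
  refine ⟨Λ, h1, fun y hy => ?_, h3⟩
  obtain ⟨p, hp, q, hq, h4, e⟩ := h1.frac y hy
  have h5 : Un W q := by_contra fun h => h4 (h2 ⟨q, hq⟩ h)
  exact h5.mem_iff.1 (e ▸ hW p hp)

theorem dom (Λ : Loc k) : ∃ W : ValuationSubring k, (∀ y ∈ Λ.O, y ∈ W) ∧
    ∀ y ∈ Λ.O, (Un W y ↔ Λ.ev y ≠ 0) := by
  let I : Ideal Λ.O.toSubring :=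
    { carrier := {y | Λ.ev (y : k) = 0}
      add_mem' := fun {a b} ha hb => by
        have h := Λ.ev_add a a.2 b b.2
        rw [show Λ.ev (a : k) = 0 from ha, show Λ.ev (b : k) = 0 from hb, add_zero] at h
        exact h
      zero_mem' := Λ.ev_zero
      smul_mem' := fun c a ha => by
        have h := Λ.ev_mul c c.2 a a.2
        rw [show Λ.ev (a : k) = 0 from ha, mul_zero] at h
        exact h }
  obtain ⟨W, h1, h2⟩ := Ideal.image_subset_nonunits_valuationSubring I fun e => by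
    have h : (1 : Λ.O.toSubring) ∈ I := e ▸ Submodule.mem_top
    exact one_ne_zero (Λ.ev_one.symm.trans h)
  refine ⟨W, fun y hy => h1 hy, fun y hy => ⟨fun h e => ?_, fun h => ⟨fun e => ?_, h1 hy, ?_⟩⟩⟩
  · exact (W.mem_nonunits_iff.1 (h2 ⟨⟨y, hy⟩, e, rfl⟩)).ne (un_iff.1 h)
  · exact h (e ▸ Λ.ev_zero)
  · exact h1 (Λ.inv_mem y hy h)

theorem chg {A' : Subalgebra ℂ L} {Λ : Loc k} (h : ∀ g, g ∈ V ↔ g ∈ P.o.F 0 ∧ P.π g ∈ W)
    (hA : ∀ g ∈ A, g ∈ P.o.F 0) (hA' : ∀ g ∈ A', g ∈ P.o.F 0)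
    (hL : LocOf (Algebra.adjoin ℂ (P.π '' A)) Λ) (hu : ∀ y ∈ Λ.O, (Un W y ↔ Λ.ev y ≠ 0))
    (l1 : ∀ g ∈ A, Lc A' V g) (l2 : ∀ g ∈ A', Lc A V g) :
    LocOf (Algebra.adjoin ℂ (P.π '' A')) Λ := by
  have m1 : ∀ g ∈ A, P.π g ∈ Λ.O := fun g hg => hL.le ((mem hA _).2 ⟨g, hg, rfl⟩)
  have m2 : ∀ g ∈ A', P.π g ∈ Λ.O := fun g hg => by
    obtain ⟨s, hs, h1, h2⟩ := l2 g hg
    have h3 := un h h1
    have h4 := mul_mem (Λ.inv_mem _ (m1 s hs) ((hu _ (m1 s hs)).1 h3)) (m1 _ h2)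
    rwa [P.mul s (hA s hs) g (hA' g hg), inv_mul_cancel_left₀ h3.1] at h4
  have m3 : ∀ g ∈ A', P.π g ∈ Algebra.adjoin ℂ (P.π '' A') := fun g hg =>
    (mem hA' _).2 ⟨g, hg, rfl⟩
  refine ⟨fun y hy => ?_, fun y hy => ?_⟩
  · obtain ⟨g, hg, rfl⟩ := (mem hA' y).1 hy
    exact m2 g hg
  · obtain ⟨p0, hp0, q0, hq0, h1, e⟩ := hL.frac y hy
    obtain ⟨p, hp, rfl⟩ := (mem hA p0).1 hp0
    obtain ⟨q, hq, rfl⟩ := (mem hA q0).1 hq0
    obtain ⟨s, hs, s1, s2⟩ := l1 p hp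
    obtain ⟨t, ht, t1, t2⟩ := l1 q hq
    refine ⟨P.π t * P.π (s * p), mul_mem (m3 t ht) (m3 _ s2), P.π s * P.π (t * q),
      mul_mem (m3 s hs) (m3 _ t2), ?_, ?_⟩
    · rw [Λ.ev_mul _ (m2 s hs) _ (m2 _ t2), P.mul t (hA' t ht) q (hA q hq),
        Λ.ev_mul _ (m2 t ht) _ (m1 q hq)]
      exact mul_ne_zero ((hu _ (m2 s hs)).1 (un h s1))
        (mul_ne_zero ((hu _ (m2 t ht)).1 (un h t1)) h1)
    · rw [P.mul t (hA' t ht) q (hA q hq), P.mul s (hA' s hs) p (hA p hp), ← e]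
      ring

end RVal

theorem rowVAL : OfVAL := by
  intro hE f M hM o
  have B := hE.bas 3 f M hM
  have hfg : ∀ b, (M.S.A b).FG := fun b => RVal.fg _ (hM.et b)
  have hmem : ∀ b, M.In b (M.v o).O → ∀ y, y ∈ Ab M o b ↔ ∃ g ∈ M.S.A b, rs M o g = y :=
    fun b hb => RVal.mem (P := (M.v o).pl) hb
  have hfgb : ∀ b, M.In b (M.v o).O → (Ab M o b).FG := fun b hb => by
    have h := ((Subalgebra.fg_top _).2 (hfg b)).map (RVal.hom (P := (M.v o).pl) hb)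
    rw [Algebra.map_top, ← RVal.adj] at h
    exact h
  refine ⟨RVal.lift (M.v o).pl, fun V hV => RVal.push (P := (M.v o).pl) (fun g hg => hV hg)
    fun g hg => (B.small V o hV g hg).1, hmem, hfg, hfgb, fun b hb y => ?_,
    fun b V W h hb q hq hu => ?_, fun L => ?_, fun a b L V W ha h hW hu hb => ?_⟩
  · obtain ⟨g, hg, rfl⟩ := (M.v o).pl.surj y
    obtain ⟨s, hs, h1, h2⟩ := B.frac b o hb g hg
    refine ⟨rs M o (s * g), (hmem b hb _).2 ⟨_, h2, rfl⟩, rs M o s, (hmem b hb _).2 ⟨_, hs, rfl⟩,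
      Pl.π_ne h1.1 ((M.v o).un_O.1 h1).2, ?_⟩
    rw [mul_comm]
    exact ((M.v o).pl.mul s (hb s hs) g hg).symm
  · have hb' : M.In b (M.v o).O := fun g hg => ((h g).1 (hb g hg)).1
    obtain ⟨L, h1, h2, h3⟩ := RVal.pt (W := W) (hfgb b hb') (fun y hy => by
      obtain ⟨g, hg, rfl⟩ := (hmem b hb' y).1 hy
      exact ((h g).1 (hb g hg)).2) ((hmem b hb' _).2 ⟨q, hq, rfl⟩)
      (RVal.un (P := (M.v o).pl) h hu)
    exact ⟨L, ⟨hb', h1⟩, h2, h3⟩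
  · obtain ⟨W, h1, h2⟩ := RVal.dom L
    obtain ⟨V, hV⟩ := RVal.lift (M.v o).pl W
    exact ⟨V, W, hV, h1, h2⟩
  · have hb' : M.In b (M.v o).O := fun g hg => ((h g).1 (hb g hg)).1
    have ha' : M.In a V := fun g hg =>
      (h g).2 ⟨ha.1 g hg, hW _ (ha.2.le ((hmem a ha.1 _).2 ⟨g, hg, rfl⟩))⟩
    exact ⟨hb', RVal.chg (P := (M.v o).pl) h ha.1 hb' ha.2 hu (B.lc a b V ha' hb)
      (B.lc b a V hb ha')⟩

end Pool.Agent.MP_ee8c61_ag.M3CP
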